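import Pool.Agent.H495R3.Tri

/-!
# Recognizing CIS graphs is coNP-complete
-/

set_option autoImplicit false

namespace Pool.Agent.Y602

open Pool.Agent.H622R2 Pool.Agent.H609R2 Pool.Agent.NPC Pool.Agent.H495R3

/-- A graph is CIS when every maximal clique meets every maximal stable set. -/
def IsCIS {V : Type} (G : SimpleGraph V) : Prop :=
  ∀ C S : Set V, Maximal G.IsClique C → Maximal G.IsIndepSet S → (C ∩ S).Nonempty

theorem maximalClique_image {V W : Type} {G : SimpleGraph V} {H : SimpleGraph W} (e : G ≃g H)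
    {C : Set V} (hC : Maximal G.IsClique C) : Maximal H.IsClique (e '' C) := by
  refine ⟨?_, ?_⟩
  · rintro _ ⟨a, ha, rfl⟩ _ ⟨b, hb, rfl⟩ hab
    exact (e.map_adj_iff).2 (hC.1 ha hb (fun h => hab (by rw [h])))
  · intro T hT hCT y hy
    have h1 : G.IsClique (e ⁻¹' T) := by
      intro a ha b hb hab
      exact (e.map_adj_iff).1 (hT ha hb (fun h => hab (e.injective h)))
    have h2 : C ⊆ e ⁻¹' T := fun a ha => hCT ⟨a, ha, rfl⟩
    have h3 : e.symm y ∈ e ⁻¹' T := by simpa using hy
    exact ⟨e.symm y, hC.2 h1 h2 h3, by simp⟩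

theorem IsCIS.of_iso {V W : Type} {G : SimpleGraph V} {H : SimpleGraph W} (e : G ≃g H)
    (h : IsCIS H) : IsCIS G := by
  intro C S hC hS
  obtain ⟨y, ⟨a, ha, rfl⟩, ⟨b, hb, hab⟩⟩ := h _ _ (maximalClique_image e hC)
    ((maximal_image e S).2 hS)
  have : b = a := e.injective hab
  subst this
  exact ⟨b, ha, hb⟩

section

variable {n m : ℕ} {L : ℕ → ℕ → Bool → Bool} {vs : List Lb}

/-- If the formula is unsatisfiable, the graph is CIS. -/
theorem cis_of_unsat (hvs : ∀ x, x ∈ vs ↔ ValidE n m L x) (hn : 0 < n)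
    (hL : ∀ k i, L k i true = true → L k i false = false)
    (hun : ∀ τ : ℕ → Bool, ∃ k < m, ∀ i < n, L k i (τ i) = false) :
    IsCIS (labGraph vs (adjE L)) := by
  classical
  intro C S hC hS
  obtain ⟨τ, k, hτ⟩ := total_of_unsat hvs hn hL hun hS
  by_contra hne
  rw [Set.not_nonempty_iff_eq_empty] at hne
  have hdisj : ∀ x : Lb, In C x → In S x → False := by
    rintro x ⟨h1, h1'⟩ ⟨_, h2'⟩
    have : (⟨x, h1⟩ : {x // x ∈ vs}) ∈ C ∩ S := ⟨h1', h2'⟩
    rw [hne] at this
    exact this
  -- members of `C` are adjacent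
  have hCadj : ∀ x y : Lb, In C x → In C y → x ≠ y → AdjP L x y := by
    rintro x y ⟨h1, h1'⟩ ⟨h2, h2'⟩ hxy
    exact (adj_iff _ _).1 (hC.1 h1' h2' (fun h => hxy (congrArg Subtype.val h)))
  -- maximality
  have hCmax : ∀ x : Lb, x ∈ vs → (∀ y, In C y → x ≠ y → AdjP L x y) → In C x := by
    intro x hx h
    refine ⟨hx, ?_⟩
    have h1 : (labGraph vs (adjE L)).IsClique (insert ⟨x, hx⟩ C) := by
      intro a ha b hb hab
      rcases ha with rfl | ha
      · rcases hb with rfl | hb
        · exact absurd rfl hab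
        · exact (adj_iff _ _).2 (h b.1 ⟨b.2, hb⟩ (fun h' => hab (Subtype.ext h')))
      · rcases hb with rfl | hb
        · exact ((adj_iff _ _).2 (h a.1 ⟨a.2, ha⟩ (fun h' => hab (Subtype.ext h'.symm)))).symm
        · exact hC.1 ha hb hab
    exact hC.2 h1 (Set.subset_insert _ _) (Set.mem_insert _ _)
  -- the literals in `C` are false under `τ`
  have hlit : ∀ i a, In C (Sum.inl (i, a)) → a ≠ τ i := by
    rintro i a h rfl
    exact hdisj _ h (hτ i ((hvs _).1 h.1)).1
  -- the choice of the variable
  obtain ⟨j, hj, hj1, hj2⟩ : ∃ j < n,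
      (∀ i a, In C (Sum.inl (i, a)) → i = j ∨ L k i a = true) ∧
      (∀ i c, In C (Sum.inr (i, k, c)) → i = j) := by
    by_cases h1 : ∃ j c, In C (Sum.inr (j, k, c))
    · obtain ⟨j, c, hjc⟩ := h1
      refine ⟨j, ((hvs _).1 hjc.1).1, ?_, ?_⟩
      · intro i a hia
        have := hCadj _ _ hia hjc (by simp)
        rw [adjP_lr] at this
        rcases this with h | h
        · exact Or.inl h.1
        · exact Or.inr h
      · intro i c' hic
        by_contra hij
        have := hCadj _ _ hic hjc (by
          simp only [ne_eq, Sum.inr.injEq, Prod.mk.injEq, not_and]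
          intro h
          exact absurd h hij)
        rw [adjP_rr] at this
        rcases this with h | h
        · exact h rfl
        · exact hij h.1
    · push Not at h1
      by_cases h2 : ∃ i a, In C (Sum.inl (i, a))
      · obtain ⟨i0, a0, h0⟩ := h2
        refine ⟨i0, (hvs _).1 h0.1, ?_, fun i c h => absurd h (h1 i c)⟩
        intro i a hia
        by_cases heq : (Sum.inl (i, a) : Lb) = Sum.inl (i0, a0)
        · simp only [Sum.inl.injEq, Prod.mk.injEq] at heq
          exact Or.inl heq.1
        · have := hCadj _ _ hia h0 heq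
          rw [adjP_ll] at this
          exact Or.inl this.1
      · push Not at h2
        exact ⟨0, hn, fun i a h => absurd h (h2 i a), fun i c h => absurd h (h1 i c)⟩
  -- the common vertex
  refine hdisj (Sum.inr (j, k, τ j)) ?_ (hτ j hj).2
  refine hCmax _ (hτ j hj).2.1 ?_
  rintro (⟨i, a⟩ | ⟨i, l, c⟩) hy hxy
  · refine AdjP.symm ((adjP_lr _ _ _ _ _).2 ?_)
    rcases hj1 i a hy with h | h
    · subst h
      exact Or.inl ⟨rfl, hlit _ _ hy⟩
    · exact Or.inr h
  · rw [adjP_rr]
    by_cases hl : k = l
    · subst hl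
      right
      have := hj2 i c hy
      subst this
      refine ⟨rfl, ?_⟩
      rintro rfl
      exact hxy rfl
    · exact Or.inl hl

/-- If the formula is satisfiable, the graph is not CIS. -/
theorem not_cis_of_sat (hvs : ∀ x, x ∈ vs ↔ ValidE n m L x) (hm : 0 < m)
    (i0 : ℕ) (hi0 : i0 < n) (hd : ∀ k a, L k i0 a = false) (τ : ℕ → Bool)
    (hτ : ∀ k < m, ∃ i < n, L k i (τ i) = true) : ¬ IsCIS (labGraph vs (adjE L)) := by
  intro h
  -- the clique
  let P : Lb → Prop := fun x => x = Sum.inl (i0, !τ i0) ∨ ∃ k, x = Sum.inr (i0, k, τ i0)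
  have hP : Maximal (labGraph vs (adjE L)).IsClique {x : {x // x ∈ vs} | P x.1} := by
    refine ⟨?_, ?_⟩
    · rintro ⟨x, hx⟩ (h1 | ⟨k, h1⟩) ⟨y, hy⟩ (h2 | ⟨l, h2⟩) hxy
      · simp only at h1 h2
        subst h1; subst h2
        exact absurd rfl hxy
      · simp only at h1 h2
        subst h1; subst h2
        rw [adj_iff, adjP_lr]
        exact Or.inl ⟨rfl, by simp⟩
      · simp only at h1 h2
        subst h1; subst h2
        refine SimpleGraph.Adj.symm ?_
        rw [adj_iff, adjP_lr]
        exact Or.inl ⟨rfl, by simp⟩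
      · simp only at h1 h2
        subst h1; subst h2
        rw [adj_iff, adjP_rr]
        left
        rintro rfl
        exact hxy rfl
    · rintro T hT hsub ⟨x, hx⟩ hxT
      change P x
      by_contra hPx
      have v1 : (Sum.inl (i0, !τ i0) : Lb) ∈ vs := (hvs _).2 hi0
      have v2 : (Sum.inr (i0, 0, τ i0) : Lb) ∈ vs := (hvs _).2 ⟨hi0, hm, hd 0 _⟩
      have m1 : (⟨_, v1⟩ : {x // x ∈ vs}) ∈ T := hsub (Or.inl rfl)
      have m2 : (⟨_, v2⟩ : {x // x ∈ vs}) ∈ T := hsub (Or.inr ⟨0, rfl⟩)
      have a1 := hT hxT m1 (by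
        intro he
        exact hPx (Or.inl (congrArg Subtype.val he)))
      have a2 := hT hxT m2 (by
        intro he
        exact hPx (Or.inr ⟨0, congrArg Subtype.val he⟩))
      rw [adj_iff] at a1 a2
      simp only at a1 a2
      rcases x with ⟨i, a⟩ | ⟨i, l, c⟩
      · rw [adjP_ll] at a1
        rw [adjP_lr] at a2
        obtain ⟨rfl, ha⟩ := a1
        rcases a2 with h2 | h2
        · revert ha h2
          cases a <;> cases τ i <;> simp
        · rw [hd] at h2
          exact absurd h2 (by simp)
      · have a1' := (adjP_lr _ _ _ _ _).1 a1.symm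
        rcases a1' with ⟨h1, h2⟩ | h1
        · subst h1
          refine hPx (Or.inr ⟨l, ?_⟩)
          have : c = τ i0 := by
            revert h2
            cases c <;> cases τ i0 <;> simp
          rw [this]
        · rw [hd] at h1
          exact absurd h1 (by simp)
  obtain ⟨⟨x, hx⟩, h1, ⟨i, h2⟩⟩ := h _ _ hP (maximal_sat hvs τ hτ)
  simp only at h2
  subst h2
  rcases h1 with h1 | ⟨k, h1⟩
  · simp only [Sum.inl.injEq, Prod.mk.injEq] at h1
    obtain ⟨rfl, h1⟩ := h1
    simp at h1
  · simp at h1

end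

/-- The graph of a formula is CIS exactly when the formula is unsatisfiable. -/
theorem eqRed_cis {φ : List C3} (h1 : Distinct3 φ) (h2 : Bounded3 φ) (h3 : φ ≠ []) :
    SAT3 φ ↔ ¬ IsCIS (matGraph (eqRed φ)) := by
  have e := matIso (labE φ) (adjE (satL φ)) (labE_nodup φ)
  constructor
  · intro hsat h
    obtain ⟨τ, hτ⟩ := (SAT3_iff h2).1 hsat
    exact not_cis_of_sat (mem_labE φ) (List.length_pos_iff.2 h3)
      (3 * φ.length) (by omega) (satL_dummy h2) τ hτ (IsCIS.of_iso e.symm h)
  · intro h
    by_contra hun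
    rw [SAT3_iff h2] at hun
    push Not at hun
    refine h (IsCIS.of_iso e (cis_of_unsat (mem_labE φ) (by omega)
      (satL_consistent h1) ?_))
    intro τ
    obtain ⟨k, hk, h⟩ := hun τ
    exact ⟨k, hk, fun i hi => by simpa using h i hi⟩

/-- Not being CIS is hard. -/
theorem hardI_not_cis :
    HardI (fun M : List (List Bool) => ¬ IsCIS (matGraph M)) :=
  (hardPr_SAT3b.trans (Pr' := fun _ => True) eqRed_poly (fun _ _ => trivial)
    (fun _ h => eqRed_cis h.1 h.2.1 h.2.2)).toHardI

/-! ### Membership in coNP -/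

/-- The verifier of certificates that a graph is not CIS: a maximal clique and a maximal stable
set that are disjoint. -/
def chkCIS (p : List (List Bool) × List ℕ × List ℕ) : Bool :=
  (p.2.1.all fun i => decide (i < p.1.length)) &&
  (p.2.2.all fun i => decide (i < p.1.length)) &&
  (p.2.1.all fun i => p.2.1.all fun j => decide (i = j) || adjB p.1 i j) &&
  (p.2.2.all fun i => p.2.2.all fun j => !adjB p.1 i j) &&
  ((List.range p.1.length).all fun x => decide (x ∈ p.2.1) || p.2.1.any fun i => !adjB p.1 i x) &&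
  ((List.range p.1.length).all fun x => decide (x ∈ p.2.2) || p.2.2.any fun i => adjB p.1 i x) &&
  (p.2.1.all fun i => !decide (i ∈ p.2.2))

theorem chkCIS_poly : Poly chkCIS := by
  unfold chkCIS
  have h1 : Poly (fun p : List (List Bool) × List ℕ × List ℕ => List.range p.1.length) :=
    Poly.range_length (Poly.fst Poly.id)
  have h2 : Poly (fun p : List (List Bool) × List ℕ × List ℕ =>
      (List.range p.1.length).all fun x => decide (x ∈ p.2.1) ||
        p.2.1.any fun i => !adjB p.1 i x) := by
    refine Poly.all (p := fun (p : List (List Bool) × List ℕ × List ℕ) x =>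
      decide (x ∈ p.2.1) || p.2.1.any fun i => !adjB p.1 i x) h1 ?_
    fun_prop
  have h3 : Poly (fun p : List (List Bool) × List ℕ × List ℕ =>
      (List.range p.1.length).all fun x => decide (x ∈ p.2.2) ||
        p.2.2.any fun i => adjB p.1 i x) := by
    refine Poly.all (p := fun (p : List (List Bool) × List ℕ × List ℕ) x =>
      decide (x ∈ p.2.2) || p.2.2.any fun i => adjB p.1 i x) h1 ?_
    fun_prop
  fun_prop

/-- The list of the numbers of the members of a set of vertices. -/
noncomputable def listOf (M : List (List Bool)) (S : Set (Fin M.length)) : List ℕ :=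
  open Classical in
  (List.range M.length).filter (fun i => decide (∃ h : i < M.length,
      (⟨i, h⟩ : Fin M.length) ∈ S))

theorem mem_listOf {M : List (List Bool)} {S : Set (Fin M.length)} (i : ℕ) :
    i ∈ listOf M S ↔ ∃ h : i < M.length, (⟨i, h⟩ : Fin M.length) ∈ S := by
  classical
  simp only [listOf, List.mem_filter, List.mem_range, decide_eq_true_eq]
  exact ⟨fun h => h.2, fun h => ⟨h.1, h⟩⟩

theorem sz_listOf_le (M : List (List Bool)) (S : Set (Fin M.length)) :
    sz (listOf M S) ≤ M.length * (4 * M.length + 2) + 1 :=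
  (sz_filter_le _ _).trans (Poly.sz_range_le M.length M.length le_rfl)

theorem not_cis_iff (M : List (List Bool)) :
    ¬ IsCIS (matGraph M) ↔
      ∃ w : List ℕ × List ℕ, sz w ≤ (Polynomial.C 8 * Polynomial.X * Polynomial.X +
        Polynomial.C 20 * Polynomial.X + Polynomial.C 20 : Polynomial ℕ).eval (sz M) ∧
        chkCIS (M, w) = true := by
  classical
  constructor
  · intro h
    unfold IsCIS at h
    push Not at h
    obtain ⟨C, S, hC, hS, hCS⟩ := h
    refine ⟨(listOf M C, listOf M S), ?_, ?_⟩
    · have h1 := sz_listOf_le M C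
      have h2 := sz_listOf_le M S
      have h5 := length_lt_sz M
      simp only [sz_pair, Polynomial.eval_add, Polynomial.eval_mul, Polynomial.eval_C,
        Polynomial.eval_X]
      nlinarith
    · simp only [chkCIS, Bool.and_eq_true, List.all_eq_true, decide_eq_true_eq, Bool.not_eq_true',
        Bool.or_eq_true, List.any_eq_true, List.mem_range, decide_eq_false_iff_not]
      refine ⟨⟨⟨⟨⟨⟨?_, ?_⟩, ?_⟩, ?_⟩, ?_⟩, ?_⟩, ?_⟩
      · intro i hi
        exact ((mem_listOf i).1 hi).1
      · intro i hi
        exact ((mem_listOf i).1 hi).1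
      · intro i hi j hj
        obtain ⟨hi1, hi2⟩ := (mem_listOf i).1 hi
        obtain ⟨hj1, hj2⟩ := (mem_listOf j).1 hj
        by_cases hij : i = j
        · exact Or.inl hij
        · right
          rw [adjB_iff M ⟨i, hi1⟩ ⟨j, hj1⟩]
          exact hC.1 hi2 hj2 (fun h => hij (congrArg Fin.val h))
      · intro i hi j hj
        obtain ⟨hi1, hi2⟩ := (mem_listOf i).1 hi
        obtain ⟨hj1, hj2⟩ := (mem_listOf j).1 hj
        rw [← Bool.not_eq_true, adjB_iff M ⟨i, hi1⟩ ⟨j, hj1⟩]
        intro hadj
        exact hS.1 hi2 hj2 hadj.ne hadj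
      · intro x hx
        by_cases hxC : (⟨x, hx⟩ : Fin M.length) ∈ C
        · exact Or.inl ((mem_listOf x).2 ⟨hx, hxC⟩)
        · right
          by_contra hcon
          push Not at hcon
          apply hxC
          have h1 : (matGraph M).IsClique (insert ⟨x, hx⟩ C) := by
            intro a ha b hb hab
            rcases ha with rfl | ha
            · rcases hb with rfl | hb
              · exact absurd rfl hab
              · have := hcon b.1 ((mem_listOf b.1).2 ⟨b.2, hb⟩)
                rw [ne_eq, Bool.not_eq_false] at this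
                exact ((adjB_iff M b ⟨x, hx⟩).1 this).symm
            · rcases hb with rfl | hb
              · have := hcon a.1 ((mem_listOf a.1).2 ⟨a.2, ha⟩)
                rw [ne_eq, Bool.not_eq_false] at this
                exact (adjB_iff M a ⟨x, hx⟩).1 this
              · exact hC.1 ha hb hab
          exact hC.2 h1 (Set.subset_insert _ _) (Set.mem_insert _ _)
      · intro x hx
        by_cases hxS : (⟨x, hx⟩ : Fin M.length) ∈ S
        · exact Or.inl ((mem_listOf x).2 ⟨hx, hxS⟩)
        · right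
          by_contra hcon
          push Not at hcon
          apply hxS
          have h1 : (matGraph M).IsIndepSet (insert ⟨x, hx⟩ S) := by
            intro a ha b hb hab hadj
            rcases ha with rfl | ha
            · rcases hb with rfl | hb
              · exact hab rfl
              · exact hcon b.1 ((mem_listOf b.1).2 ⟨b.2, hb⟩)
                  ((adjB_iff M b ⟨x, hx⟩).2 hadj.symm)
            · rcases hb with rfl | hb
              · exact hcon a.1 ((mem_listOf a.1).2 ⟨a.2, ha⟩) ((adjB_iff M a ⟨x, hx⟩).2 hadj)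
              · exact hS.1 ha hb hab hadj
          exact hS.2 h1 (Set.subset_insert _ _) (Set.mem_insert _ _)
      · intro i hi hi'
        obtain ⟨h1, h2⟩ := (mem_listOf i).1 hi
        obtain ⟨_, h3⟩ := (mem_listOf i).1 hi'
        have : (⟨i, h1⟩ : Fin M.length) ∈ C ∩ S := ⟨h2, h3⟩
        rw [hCS] at this
        exact this
  · rintro ⟨⟨K, T⟩, -, hc⟩ h
    simp only [chkCIS, Bool.and_eq_true, List.all_eq_true, decide_eq_true_eq, Bool.not_eq_true',
        Bool.or_eq_true, List.any_eq_true, List.mem_range, decide_eq_false_iff_not] at hc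
    obtain ⟨⟨⟨⟨⟨⟨c0, c1⟩, c2⟩, c3⟩, c4⟩, c5⟩, c6⟩ := hc
    have hmaxK : Maximal (matGraph M).IsClique {x : Fin M.length | (x : ℕ) ∈ K} := by
      refine ⟨?_, ?_⟩
      · intro a ha b hb hab
        rcases c2 _ ha _ hb with h1 | h1
        · exact absurd (Fin.ext h1) hab
        · exact (adjB_iff M a b).1 h1
      · intro T' hT' hTT' x hx
        rcases c4 x.1 x.2 with h1 | ⟨i, hi, h1⟩
        · exact h1
        · by_contra hxK
          have h2 : (⟨i, c0 i hi⟩ : Fin M.length) ∈ T' := hTT' hi
          have hne : (⟨i, c0 i hi⟩ : Fin M.length) ≠ x := by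
            rintro rfl
            exact hxK hi
          have h3 := (adjB_iff M ⟨i, c0 i hi⟩ x).2 (hT' h2 hx hne)
          rw [h3] at h1
          exact absurd h1 (by simp)
    have hmaxT : Maximal (matGraph M).IsIndepSet {x : Fin M.length | (x : ℕ) ∈ T} := by
      refine ⟨?_, ?_⟩
      · intro a ha b hb _ hadj
        have h1 := c3 _ ha _ hb
        rw [(adjB_iff M a b).2 hadj] at h1
        exact absurd h1 (by simp)
      · intro T' hT' hTT' x hx
        rcases c5 x.1 x.2 with h1 | ⟨i, hi, h1⟩
        · exact h1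
        · exfalso
          have h2 : (⟨i, c1 i hi⟩ : Fin M.length) ∈ T' := hTT' hi
          have h3 := (adjB_iff M ⟨i, c1 i hi⟩ x).1 h1
          exact hT' h2 hx h3.ne h3
    obtain ⟨x, hx1, hx2⟩ := h _ _ hmaxK hmaxT
    exact c6 _ hx1 hx2

theorem inCoNP_cis : InCoNPP (fun M : List (List Bool) => IsCIS (matGraph M)) :=
  inCoNPP_of chkCIS_poly _ not_cis_iff

end Pool.Agent.Y602
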