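import Pool.Agent.TH706.ST.Cover
import Pool.Agent.H537R2.Hard

/-!
# Goldreich's function and programs with a stack: the count for a fixed expanding hypergraph
-/

set_option autoImplicit false
set_option linter.unusedSectionVars false

open Finset

namespace Pool.Agent.Y602.GS

open Pool.Agent.W896.MO
open Pool.Agent.TH706.ST (Right Good' union_bound' Agr')
open Pool.Agent.H537R2 (Row rowVal Expand cyl char_bound card_uniq_le uniq card_cyl)

open Classical in
/-- Kraft's inequality for adaptive procedures: the sets of inputs `z` which are consistent with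
the reads on the inputs `F y`, `y ∈ A`, are equal or disjoint. -/
theorem kraft {Ω Z ι ω α : Type} [Fintype Ω] [Fintype Z]
    (X : Z → ι → α) (F : Ω → Z) {Rel : (ι → α) → List (Option (Ev ι ω α)) → Prop}
    (hP : Proc Rel) (A : Finset Ω) (lst : Ω → List (Option (Ev ι ω α)))
    (hl : ∀ y ∈ A, Rel (X (F y)) (lst y)) (N : ℕ)
    (hN : ∀ y ∈ A, (A.filter (fun y' => Agr' X (lst y) (F y) (F y'))).card *
      (Fintype.card Z * N) ≤
      Fintype.card Ω * (univ.filter (fun z => Agr' X (lst y) (F y) z)).card) :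
    A.card * N ≤ Fintype.card Ω := by
  obtain ⟨C, hC⟩ : ∃ C : Ω → Finset Z, ∀ y, C y =
    univ.filter (fun z => Agr' X (lst y) (F y) z) := ⟨_, fun _ => rfl⟩
  have hself : ∀ y, F y ∈ C y := by
    intro y
    rw [hC, mem_filter]
    exact ⟨mem_univ _, fun i _ => rfl⟩
  have hdis : ∀ y ∈ A, ∀ z ∈ A, ∀ w, w ∈ C y → w ∈ C z → C y = C z := by
    intro y hy z hz w h1 h2
    rw [hC, mem_filter] at h1 h2
    have e1 := hP.trans _ (X w) _ (hl y hy) (fun i hi => h1.2 i hi)
    have e2 := hP.trans _ (X w) _ (hl z hz) (fun i hi => h2.2 i hi)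
    have e3 := hP.uniq _ _ _ _ e1 e2 (fun _ _ _ => rfl)
    rw [hC, hC]
    ext v
    rw [mem_filter, mem_filter, ← e3]
    refine and_congr_right (fun _ => ?_)
    constructor
    · intro h i hi
      rw [h i hi, ← h1.2 i hi, h2.2 i (e3 ▸ hi)]
    · intro h i hi
      rw [h i hi, ← h1.2 i hi, h2.2 i (e3 ▸ hi)]
  rcases A.eq_empty_or_nonempty with rfl | ⟨y₀, hy₀⟩
  · simp
  have hZ : 0 < Fintype.card Z := Fintype.card_pos_iff.2 ⟨F y₀⟩
  have hdisj : (↑(A.image C) : Set (Finset Z)).PairwiseDisjoint id := by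
    intro D hD E hE hDE
    rw [mem_coe, mem_image] at hD hE
    obtain ⟨y, hy, rfl⟩ := hD
    obtain ⟨z, hz, rfl⟩ := hE
    rw [Function.onFun, id, id, disjoint_left]
    intro w h1 h2
    exact hDE (hdis y hy z hz w h1 h2)
  have hsum : ∑ D ∈ A.image C, D.card ≤ Fintype.card Z := by
    calc _ = ((A.image C).biUnion id).card := (card_biUnion hdisj).symm
      _ ≤ Fintype.card Z := card_le_univ _
  have hA : A.card = ∑ D ∈ A.image C, (A.filter (fun y => C y = D)).card :=
    card_eq_sum_card_fiberwise (fun y hy => mem_image_of_mem C hy)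
  have hfin : A.card * (Fintype.card Z * N) ≤ Fintype.card Ω * Fintype.card Z := by
    rw [hA, sum_mul]
    calc _ ≤ ∑ D ∈ A.image C, Fintype.card Ω * D.card := by
          apply sum_le_sum
          intro D hD
          rw [mem_image] at hD
          obtain ⟨y, hy, rfl⟩ := hD
          refine le_trans (Nat.mul_le_mul_right _ (card_le_card ?_)) (hC y ▸ hN y hy)
          intro z hz
          rw [mem_filter] at hz ⊢
          refine ⟨hz.1, ?_⟩
          have h1 := hself z
          rw [hz.2, hC, mem_filter] at h1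
          exact h1.2
      _ = Fintype.card Ω * ∑ D ∈ A.image C, D.card := (mul_sum _ _ _).symm
      _ ≤ _ := Nat.mul_le_mul_left _ hsum
  have h1 : Fintype.card Z * (A.card * N) ≤ Fintype.card Z * Fintype.card Ω := by
    calc _ = A.card * (Fintype.card Z * N) := by ring
      _ ≤ _ := hfin
      _ = _ := by ring
  exact Nat.le_of_mul_le_mul_left h1 hZ

section

variable {V : Type} [Fintype V] [DecidableEq V] {m e : ℕ}

/-- Given values of few rows tell little about any set of variables. -/
theorem leaf (g : (Fin e → Bool) → Bool) (G : Fin m → Row V e) (a D : ℕ)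
    (hG : Expand G a D) (J : Finset (Fin m)) (ζ : Fin m → Bool) (I : Finset V) (b : V → Bool)
    (hJ : #J ≤ D) (hI : 2 * a ≤ #I) :
    #(univ.filter (fun x : V → Bool => (∀ j ∈ J, rowVal g (G j) x = ζ j) ∧
      ∀ i ∈ I, x i = b i)) * 2 ^ #J * 2 ^ a ≤ 2 ^ Fintype.card V := by
  classical
  obtain ⟨I', hI', hIc⟩ := exists_subset_card_eq hI
  have hsub : (univ.filter (fun x : V → Bool => (∀ j ∈ J, rowVal g (G j) x = ζ j) ∧
      ∀ i ∈ I, x i = b i)) ⊆
      (cyl I' b).filter (fun x => ∀ j ∈ J, rowVal g (G j) x = ζ j) := by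
    intro x hx
    simp only [mem_filter, mem_univ, true_and] at hx
    simp only [cyl, mem_filter, mem_univ, true_and]
    exact ⟨fun i hi => hx.2 i (hI' hi), hx.1⟩
  have h1 := char_bound g G J ζ I' b
  have h2 := card_uniq_le hG hJ (I := I') hIc.le
  rw [hIc, two_mul, pow_add] at h1
  have h3 := card_le_card hsub
  set A := #((cyl I' b).filter (fun x => ∀ j ∈ J, rowVal g (G j) x = ζ j))
  have h4 : A * 2 ^ #J * 2 ^ a * 2 ^ a ≤ 2 ^ Fintype.card V * 2 ^ a := by
    calc A * 2 ^ #J * 2 ^ a * 2 ^ a = A * 2 ^ #J * (2 ^ a * 2 ^ a) := by ring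
      _ ≤ _ := h1
      _ ≤ 2 ^ Fintype.card V * 2 ^ a := Nat.mul_le_mul_left _ h2
  have h5 : A * 2 ^ #J * 2 ^ a ≤ 2 ^ Fintype.card V :=
    Nat.le_of_mul_le_mul_right h4 (by positivity)
  exact (Nat.mul_le_mul_right _ (Nat.mul_le_mul_right _ h3)).trans h5

/-- The input that belongs to the values `z` of the rows. -/
def inpZ (kind : ℕ → Option (Fin m)) (cst : ℕ → Bool) (z : Fin m → Bool) (p : ℕ) : Bool :=
  match kind p with
  | none => cst p
  | some j => z j

/-- The value that has to be written for the output `o`. -/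
def rightVal (c : Bool) (x : V → Bool) (o : Option V) : Bool :=
  match o with
  | none => false
  | some v => (x v ^^ c)

open Classical in
/-- Procedures with few reads find few assignments. -/
theorem proc_bound (g : (Fin e → Bool) → Bool) (G : Fin m → Row V e) (a D : ℕ)
    (hG : Expand G a D) (U : Finset V) (c : Bool) (kind : ℕ → Option (Fin m)) (cst : ℕ → Bool)
    (a' : ℕ) (ha' : 4 * a' ≤ D) (Rel : (ℕ → Bool) → List (Option (Ev ℕ (Option V) Bool)) → Prop)
    (hP : Proc Rel) :
    #(univ.filter (fun x : V → Bool => Good' (fun x : V → Bool =>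
      inpZ kind cst (fun j => rowVal g (G j) x)) (rightVal c) (fun o => ∃ v, v ∉ U ∧ o = some v)
      a' (2 * a) Rel x)) * 2 ^ a ≤ 2 ^ Fintype.card V := by
  obtain ⟨A, hA⟩ : ∃ A, A = univ.filter (fun x : V → Bool => Good' (fun x : V → Bool =>
      inpZ kind cst (fun j => rowVal g (G j) x)) (rightVal c) (fun o => ∃ v, v ∉ U ∧ o = some v)
      a' (2 * a) Rel x) := ⟨_, rfl⟩
  rw [← hA]
  have hex : ∀ y : V → Bool, ∃ (l : List (Option (Ev ℕ (Option V) Bool)))
      (O : Finset (Option V)), y ∈ A →
      Rel (inpZ kind cst (fun j => rowVal g (G j) y)) l ∧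
      l.length ≤ 4 * a' ∧ (∀ o v, (∃ v, v ∉ U ∧ o = some v) → some (.inr (o, v)) ∈ l →
        v = rightVal c y o) ∧
      2 * a ≤ O.card ∧ (∀ o ∈ O, (∃ v, v ∉ U ∧ o = some v) ∧
        some (.inr (o, rightVal c y o)) ∈ l) := by
    intro y
    by_cases hy : y ∈ A
    · have h1 := hy
      rw [hA, mem_filter] at h1
      obtain ⟨l, h2, h3, h4, O, h5, h6⟩ := h1.2
      exact ⟨l, O, fun _ => ⟨h2, h3, h4, h5, h6⟩⟩
    · exact ⟨[], ∅, fun h => absurd h hy⟩
  choose lst Os hlst using hex
  have hk := kraft (Ω := V → Bool) (Z := Fin m → Bool) (inpZ kind cst)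
    (fun x j => rowVal g (G j) x) hP A lst (fun y hy => (hlst y hy).1) (2 ^ a) ?_
  · rwa [Fintype.card_fun, Fintype.card_bool] at hk
  intro y hy
  obtain ⟨h1, h2, h3, h4, h5⟩ := hlst y hy
  obtain ⟨J, hJ⟩ : ∃ J : Finset (Fin m), J = univ.filter (fun j =>
    ∃ p, some (.inl p) ∈ lst y ∧ kind p = some j) := ⟨_, rfl⟩
  obtain ⟨I, hI⟩ : ∃ I : Finset V, I = univ.filter (fun v => some v ∈ Os y) := ⟨_, rfl⟩
  have hJc : #J ≤ D := by
    let φ : Option (Ev ℕ (Option V) Bool) → Option (Fin m) := fun e => match e with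
      | some (.inl i) => kind i
      | _ => none
    have h6 : J.image some ⊆ ((lst y).map φ).toFinset := by
      intro e he
      rw [mem_image] at he
      obtain ⟨r, hr, rfl⟩ := he
      rw [hJ, mem_filter] at hr
      obtain ⟨-, i, hi, hi'⟩ := hr
      rw [List.mem_toFinset, List.mem_map]
      exact ⟨_, hi, hi'⟩
    have h7 := card_le_card h6
    rw [card_image_of_injective _ (Option.some_injective _)] at h7
    refine h7.trans ((List.toFinset_card_le _).trans ?_)
    rw [List.length_map]
    omega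
  have hIc : 2 * a ≤ #I := by
    have h6 : Os y ⊆ I.image some := by
      intro o ho
      obtain ⟨v, -, rfl⟩ := (h5 o ho).1
      rw [mem_image]
      exact ⟨v, by rw [hI, mem_filter]; exact ⟨mem_univ _, ho⟩, rfl⟩
    have h7 := card_le_card h6
    rw [card_image_of_injective _ (Option.some_injective _)] at h7
    omega
  have hleaf := leaf g G a D hG J (fun j => rowVal g (G j) y) I y hJc hIc
  have hagr : ∀ z w : Fin m → Bool, Agr' (inpZ kind cst) (lst y) z w ↔ ∀ j ∈ J, w j = z j := by
    intro z w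
    constructor
    · intro h j hj
      rw [hJ, mem_filter] at hj
      obtain ⟨-, p, hp, hp'⟩ := hj
      have := h p hp
      unfold inpZ at this
      rw [hp'] at this
      exact this
    · intro h p hp
      unfold inpZ
      cases hk : kind p with
      | none => rfl
      | some j => exact h j (by rw [hJ, mem_filter]; exact ⟨mem_univ _, p, hp, hk⟩)
  have hC : (univ.filter (fun z => Agr' (inpZ kind cst) (lst y)
      (fun j => rowVal g (G j) y) z)).card * 2 ^ #J = 2 ^ m := by
    have h6 := card_cyl (V := Fin m) J (fun j => rowVal g (G j) y)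
    rw [Fintype.card_fin] at h6
    rw [← h6]
    congr 2
    ext z
    simp only [cyl, mem_filter, mem_univ, true_and]
    exact hagr _ _
  have hB : (A.filter (fun y' => Agr' (inpZ kind cst) (lst y) (fun j => rowVal g (G j) y)
      (fun j => rowVal g (G j) y'))).card ≤
      #(univ.filter (fun x : V → Bool => (∀ j ∈ J, rowVal g (G j) x = rowVal g (G j) y) ∧
      ∀ i ∈ I, x i = y i)) := by
    apply card_le_card
    intro z hz
    rw [mem_filter] at hz ⊢
    refine ⟨mem_univ _, (hagr _ _).1 hz.2, ?_⟩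
    intro i hi
    rw [hI, mem_filter] at hi
    have e1 := hP.trans _ (inpZ kind cst (fun j => rowVal g (G j) z)) _ h1 (fun i hi => hz.2 i hi)
    have e3 := hP.uniq _ _ _ _ e1 (hlst z hz.1).1 (fun _ _ _ => rfl)
    have e4 := h5 _ hi.2
    rw [e3] at e4
    have e5 := (hlst z hz.1).2.2.1 _ _ e4.1 e4.2
    unfold rightVal at e5
    simp only at e5
    revert e5
    cases z i <;> cases y i <;> cases c <;> simp
  rw [Fintype.card_fun, Fintype.card_bool, Fintype.card_fin, Fintype.card_fun, Fintype.card_bool,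
    ← hC]
  calc _ ≤ #(univ.filter (fun x : V → Bool => (∀ j ∈ J, rowVal g (G j) x = rowVal g (G j) y) ∧
      ∀ i ∈ I, x i = y i)) * ((univ.filter (fun z => Agr' (inpZ kind cst) (lst y)
      (fun j => rowVal g (G j) y) z)).card * 2 ^ #J * 2 ^ a) := Nat.mul_le_mul_right _ hB
    _ = #(univ.filter (fun x : V → Bool => (∀ j ∈ J, rowVal g (G j) x = rowVal g (G j) y) ∧
      ∀ i ∈ I, x i = y i)) * 2 ^ #J * 2 ^ a * (univ.filter (fun z => Agr' (inpZ kind cst) (lst y)
      (fun j => rowVal g (G j) y) z)).card := by ring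
    _ ≤ _ := Nat.mul_le_mul_right _ hleaf

open Classical in
/-- For a fixed expanding system of rows, few assignments are found by a program with a stack. -/
theorem fixed_stack (P : Prog ℕ (Option V) Bool) (g : (Fin e → Bool) → Bool)
    (G : Fin m → Row V e) (a D : ℕ) (ha : 0 < a) (hG : Expand G a D) (U : Finset V)
    (c : Bool) (kind : ℕ → Option (Fin m)) (cst : ℕ → Bool)
    (T a' : ℕ) (ha' : 1 ≤ a') (haD : 4 * a' ≤ D)
    (hU : (T / a' + 1) * (2 * a) + #U ≤ Fintype.card V) :
    #(univ.filter (fun x : V → Bool => Right P (fun x : V → Bool =>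
      inpZ kind cst (fun j => rowVal g (G j) x)) (rightVal c)
      (fun o => ∃ v, v ∉ U ∧ o = some v) T x)) * 2 ^ a ≤
      Fintype.card P.State * (T * (Fintype.card P.State) ^ 2 + 1) ^ 4 *
        2 ^ Fintype.card V := by
  have h := union_bound' P (fun x : V → Bool =>
      inpZ kind cst (fun j => rowVal g (G j) x)) (rightVal c)
      (fun o => ∃ v, v ∉ U ∧ o = some v) (a := a') (N₀ := Fintype.card V - #U)
      (N₁ := 2 * a) (T := T) (K := 2 ^ Fintype.card V / 2 ^ a) ha' (by omega)
      (by omega) (by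
        have h2 : ((univ \ U).image some).card = Fintype.card V - #U := by
          rw [card_image_of_injective _ (Option.some_injective _),
            card_sdiff_of_subset (subset_univ _), card_univ]
        rw [← h2]
        apply card_le_card
        intro o ho
        rw [mem_image] at ho
        obtain ⟨v, hv, rfl⟩ := ho
        rw [mem_sdiff] at hv
        simp only [mem_filter, mem_univ, true_and]
        exact ⟨v, hv.2, rfl⟩)
      (by
        intro Rel hRel
        rw [Nat.le_div_iff_mul_le (by positivity)]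
        exact proc_bound g G a D hG U c kind cst a' haD Rel hRel)
  calc _ ≤ Fintype.card P.State * (T * (Fintype.card P.State) ^ 2 + 1) ^ 4 *
        (2 ^ Fintype.card V / 2 ^ a) * 2 ^ a := Nat.mul_le_mul_right _ h
    _ = Fintype.card P.State * (T * (Fintype.card P.State) ^ 2 + 1) ^ 4 *
        (2 ^ Fintype.card V / 2 ^ a * 2 ^ a) := by ring
    _ ≤ _ := Nat.mul_le_mul_left _ (Nat.div_mul_le_self _ _)

end

end Pool.Agent.Y602.GS
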