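import Pool.Agent.Y602.GS1

/-!
# Goldreich's function and programs with a stack: the average over the hypergraphs
-/

set_option autoImplicit false
set_option linter.unusedSectionVars false

open Finset

namespace Pool.Agent.Y602.GS

open Pool.Agent.W896.MO
open Pool.Agent.TH706.ST (Right)
open Pool.Agent.H537R2 hiding Prog

section

variable {V : Type} [Fintype V] [DecidableEq V] {m e : ℕ}

/-- The program finds, from the rows and their values, an assignment with the same values. -/
def WinS (P : Prog ℕ (Option V) Bool) (g : (Fin e → Bool) → Bool) (inp : ℕ → Bool)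
    (T : ℕ) (G : Fin m → Row V e) (x : V → Bool) : Prop :=
  ∃ x' : V → Bool, (∀ j, rowVal g (G j) x = rowVal g (G j) x') ∧
    ∃ l, P.Runs inp P.start [] l ∧ l.length ≤ T ∧ ∀ v b, .inr (some v, b) ∈ l ↔ b = x' v

open Classical in
theorem core_stack (P : (Fin m → Row V e) → Prog ℕ (Option V) Bool) (g : (Fin e → Bool) → Bool)
    (q : ℕ) (hq : Fintype.card V = 8 * q) (hm : m = 8 ^ (e + 2) * (4 * Fintype.card V))
    (a a' T M : ℕ) (ha : 0 < a) (haq : a ≤ q) (ha' : 1 ≤ a')
    (hD : kap (4 * 8 ^ (e + 2)) e * (4 * a') ≤ Fintype.card V)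
    (hBa : (T / a' + 1) * (2 * a) ≤ 7 * q)
    (hM : ∀ G, Fintype.card (P G).State * (T * (Fintype.card (P G).State) ^ 2 + 1) ^ 4 ≤ M)
    (kind : ℕ → Option (Fin m)) (cst : (Fin m → Row V e) → ℕ → Bool) :
    #(univ.filter (fun p : (Fin m → Row V e) × (V → Bool) =>
      WinS (P p.1) g (inpZ kind (cst p.1) (fun j => rowVal g (p.1 j) p.2)) T p.1 p.2)) * 2 ^ a ≤
      7 * M * (2 ^ Fintype.card V * Fintype.card (Row V e) ^ m) := by
  set n := Fintype.card V with hn'
  set N := Fintype.card (Row V e) ^ m with hN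
  have hV : 0 < Fintype.card V := by omega
  obtain ⟨v₀⟩ := Fintype.card_pos_iff.1 hV
  have hM1 : 1 ≤ M := by
    refine le_trans ?_ (hM (fun _ _ => v₀))
    have h1 : 0 < Fintype.card (P (fun _ _ => v₀)).State :=
      Fintype.card_pos_iff.2 ⟨(P (fun _ _ => v₀)).start⟩
    exact Nat.succ_le_of_lt (by positivity)
  set S1 := univ.filter (fun G : Fin m → Row V e => ¬ Expand G a (4 * a')) with hS1
  set S2 := univ.filter (fun G : Fin m → Row V e => ¬ Gap G q) with hS2
  set S3 := univ.filter (fun x : V → Bool => ¬ Bal q x) with hS3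
  have h1 : #S1 * 2 ^ a ≤ N := by
    have := card_not_expand (V := V) (m := m) (e := e) (4 * 8 ^ (e + 2)) a (4 * a')
      (by rw [hm]; ring) (by positivity) ha hD
    rw [← card_row] at this
    refine le_trans (Nat.mul_le_mul_left _ ?_) this
    exact Nat.pow_le_pow_left (by norm_num) a
  have h2 : #S2 * 2 ^ a ≤ N := by
    have := card_not_gap (V := V) (m := m) (e := e) q hq hm
    refine le_trans (Nat.mul_le_mul_left _ ?_) this
    exact Nat.pow_le_pow_right (by norm_num) (by omega)
  have h3 : #S3 * 2 ^ a ≤ 2 * 2 ^ n := by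
    have := card_not_bal (V := V) q hq
    refine le_trans (Nat.mul_le_mul_left _ ?_) this
    exact Nat.pow_le_pow_right (by norm_num) haq
  have h4 : ∀ x : V → Bool, Bal q x →
      #(univ.filter (fun G : Fin m → Row V e => ¬ Close g q G x)) * 2 ^ a ≤ N := by
    intro x hx
    have := card_not_close g q hq hm x hx
    refine le_trans (Nat.mul_le_mul_left _ ?_) this
    exact Nat.pow_le_pow_right (by norm_num) (by omega)
  obtain ⟨R, hR⟩ : ∃ R : Bool → (Fin m → Row V e) → (V → Bool) → Prop, ∀ c G x,
      R c G x = Right (P G) (fun x : V → Bool =>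
        inpZ kind (cst G) (fun j => rowVal g (G j) x)) (rightVal c)
        (fun o => ∃ v, v ∉ amb G q ∧ o = some v) T x := ⟨_, fun _ _ _ => rfl⟩
  have h5 : ∀ (c : Bool) (G : Fin m → Row V e), Expand G a (4 * a') → Gap G q →
      #(univ.filter (fun x => R c G x)) * 2 ^ a ≤ M * 2 ^ n := by
    intro c G hE hGap
    have hU := card_amb_le hGap
    simp only [hR]
    refine (fixed_stack (P G) g G a (4 * a') ha hE (amb G q) c kind (cst G) T a' ha' le_rfl
      (by omega)).trans (Nat.mul_le_mul_right _ (hM G))
  have hsub : univ.filter (fun p : (Fin m → Row V e) × (V → Bool) =>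
      WinS (P p.1) g (inpZ kind (cst p.1) (fun j => rowVal g (p.1 j) p.2)) T p.1 p.2) ⊆
      (S1 ×ˢ univ) ∪ ((S2 ×ˢ univ) ∪ ((univ ×ˢ S3) ∪
      ((univ.filter (fun p : (Fin m → Row V e) × (V → Bool) =>
        Bal q p.2 ∧ ¬ Close g q p.1 p.2)) ∪
      ((univ.filter (fun p : (Fin m → Row V e) × (V → Bool) =>
        (Expand p.1 a (4 * a') ∧ Gap p.1 q) ∧ R false p.1 p.2)) ∪
      (univ.filter (fun p : (Fin m → Row V e) × (V → Bool) =>
        (Expand p.1 a (4 * a') ∧ Gap p.1 q) ∧ R true p.1 p.2)))))) := by
    intro p hp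
    simp only [mem_filter, mem_univ, true_and] at hp
    obtain ⟨x', hx', l, hl1, hl2, hout⟩ := hp
    simp only [mem_union, mem_product, mem_univ, and_true, true_and, hS1, hS2, hS3, mem_filter]
    by_cases c1 : Expand p.1 a (4 * a')
    · by_cases c2 : Gap p.1 q
      · by_cases c3 : Bal q p.2
        · by_cases c4 : Close g q p.1 p.2
          · obtain ⟨c, hc⟩ := agree_of_close g q p.1 p.2 c4 x' hx'
            have hRc : R c p.1 p.2 := by
              rw [hR]
              refine ⟨l, hl1, hl2, ?_, ?_⟩
              · rintro o b ⟨v, hv, rfl⟩ hb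
                rw [(hout v b).1 hb, hc v hv]
                rfl
              · rintro o ⟨v, hv, rfl⟩
                rw [hout v]
                rw [hc v hv]
                rfl
            cases c
            · right; right; right; right; left
              exact ⟨⟨c1, c2⟩, hRc⟩
            · right; right; right; right; right
              exact ⟨⟨c1, c2⟩, hRc⟩
          · right; right; right; left
            exact ⟨c3, c4⟩
        · right; right; left; exact c3
      · right; left; exact c2
    · left; exact c1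
  have hcardG : Fintype.card (Fin m → Row V e) = N := by
    rw [hN, Fintype.card_fun, Fintype.card_fin]
  have hcardX : Fintype.card (V → Bool) = 2 ^ n := by simp [hn']
  have b1 : #(S1 ×ˢ (univ : Finset (V → Bool))) * 2 ^ a ≤ 2 ^ n * N := by
    rw [card_product, card_univ, hcardX]
    calc _ = #S1 * 2 ^ a * 2 ^ n := by ring
      _ ≤ N * 2 ^ n := Nat.mul_le_mul_right _ h1
      _ = _ := by ring
  have b2 : #(S2 ×ˢ (univ : Finset (V → Bool))) * 2 ^ a ≤ 2 ^ n * N := by
    rw [card_product, card_univ, hcardX]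
    calc _ = #S2 * 2 ^ a * 2 ^ n := by ring
      _ ≤ N * 2 ^ n := Nat.mul_le_mul_right _ h2
      _ = _ := by ring
  have b3 : #((univ : Finset (Fin m → Row V e)) ×ˢ S3) * 2 ^ a ≤ 2 * (2 ^ n * N) := by
    rw [card_product, card_univ, hcardG]
    calc _ = N * (#S3 * 2 ^ a) := by ring
      _ ≤ N * (2 * 2 ^ n) := Nat.mul_le_mul_left _ h3
      _ = _ := by ring
  have b4 : #(univ.filter (fun p : (Fin m → Row V e) × (V → Bool) =>
      Bal q p.2 ∧ ¬ Close g q p.1 p.2)) * 2 ^ a ≤ 2 ^ n * N := by
    rw [Finset.card_filter, Fintype.sum_prod_type_right, sum_mul]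
    calc _ ≤ ∑ x : V → Bool, N := by
          apply sum_le_sum
          intro x _
          by_cases hx : Bal q x
          · have := h4 x hx
            rw [Finset.card_filter] at this
            simpa [hx] using this
          · simp [hx]
      _ = 2 ^ n * N := by rw [sum_const, card_univ, hcardX, smul_eq_mul]
  have b5 : ∀ c : Bool, #(univ.filter (fun p : (Fin m → Row V e) × (V → Bool) =>
      (Expand p.1 a (4 * a') ∧ Gap p.1 q) ∧ R c p.1 p.2)) * 2 ^ a ≤ M * (2 ^ n * N) := by
    intro c
    rw [Finset.card_filter, Fintype.sum_prod_type, sum_mul]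
    calc _ ≤ ∑ G : Fin m → Row V e, M * 2 ^ n := by
          apply sum_le_sum
          intro G _
          by_cases hG : Expand G a (4 * a') ∧ Gap G q
          · have := h5 c G hG.1 hG.2
            rw [Finset.card_filter] at this
            simpa [hG] using this
          · simp [hG]
      _ = _ := by rw [sum_const, card_univ, hcardG, smul_eq_mul]; ring
  have hfin := (card_le_card hsub).trans ((card_union_le _ _).trans (Nat.add_le_add_left
    ((card_union_le _ _).trans (Nat.add_le_add_left ((card_union_le _ _).trans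
    (Nat.add_le_add_left ((card_union_le _ _).trans (Nat.add_le_add_left (card_union_le _ _) _))
    _)) _)) _))
  have b50 := b5 false
  have b51 := b5 true
  refine (Nat.mul_le_mul_right _ hfin).trans ?_
  simp only [Nat.add_mul]
  have hMM : 2 ^ n * N ≤ M * (2 ^ n * N) := Nat.le_mul_of_pos_left _ (by omega)
  calc _ ≤ 2 ^ n * N + (2 ^ n * N + (2 * (2 ^ n * N) + (2 ^ n * N +
        (M * (2 ^ n * N) + M * (2 ^ n * N))))) := by
        gcongr
    _ ≤ 7 * M * (2 ^ n * N) := by
        have : 7 * M * (2 ^ n * N) = 7 * (M * (2 ^ n * N)) := by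
          ring
        omega

end

/-! ### Renaming the outputs -/

section

variable {ι ω ω' α : Type}

/-- Renaming the outputs of a program. -/
def mapOut (P : Prog ι ω α) (h : ω → ω') : Prog ι ω' α where
  State := P.State
  Sym := P.Sym
  start := P.start
  act := fun q => match P.act q with
    | .read i nxt => .read i nxt
    | .write o v q' => .write (h o) v q'
    | .push a q' => .push a q'
    | .pop nxt => .pop nxt
    | .halt => .halt

theorem mapOut_runs (P : Prog ι ω α) (h : ω → ω') {x : ι → α} {q : P.State} {σ : List P.Sym}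
    {l : List (ι ⊕ (ω × α))} (r : P.Runs x q σ l) :
    (mapOut P h).Runs x q σ (l.map (Sum.map id (Prod.map h id))) := by
  induction r with
  | @halt q σ hq =>
    refine Prog.Runs.halt ?_
    simp [mapOut, hq]
  | @read q σ i nxt l hq _ ih =>
    refine Prog.Runs.read (P := mapOut P h) (nxt := nxt) ?_ ih
    simp [mapOut, hq]
  | @write q σ o v q' l hq _ ih =>
    refine Prog.Runs.write (P := mapOut P h) (o := h o) (v := v) ?_ ih
    simp [mapOut, hq]
  | @push q σ a q' l hq _ ih =>
    refine Prog.Runs.push (P := mapOut P h) (a := a) ?_ ih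
    simp [mapOut, hq]
  | @pop q a σ nxt l hq _ ih =>
    refine Prog.Runs.pop (P := mapOut P h) (nxt := nxt) ?_ ih
    simp [mapOut, hq]

theorem mem_map_inr (l : List (ι ⊕ (ω × α))) (h : ω → ω') (o' : ω') (v : α) :
    (.inr (o', v) : ι ⊕ (ω' × α)) ∈ l.map (Sum.map id (Prod.map h id)) ↔
      ∃ o, h o = o' ∧ .inr (o, v) ∈ l := by
  rw [List.mem_map]
  constructor
  · rintro ⟨ev, h1, h2⟩
    rcases ev with i | ⟨o, w⟩
    · simp at h2
    · simp only [Sum.map_inr, Prod.map_apply, id_eq, Sum.inr.injEq, Prod.mk.injEq] at h2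
      obtain ⟨h3, h4⟩ := h2
      exact ⟨o, h3, h4 ▸ h1⟩
  · rintro ⟨o, rfl, h2⟩
    exact ⟨_, h2, rfl⟩

end

end Pool.Agent.Y602.GS
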