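import Pool.Agent.Y602.GS2

/-!
# Goldreich's function and programs with a stack: bit strings and parameters
-/

set_option autoImplicit false
set_option linter.unusedSectionVars false

open Finset

namespace Pool.Agent.Y602.GS

open Pool.Agent.W896.MO
open Pool.Agent.H537R2 hiding Prog Inverts

/-- On the string `y` (bits beyond its end are read as `false`) the program, started with the empty
stack, halts after at most `T` reads and writes, and it writes exactly the string `w`: every
written bit is right and every bit of `w` is written, in any order. -/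
def Writes (P : Prog ℕ ℕ Bool) (T : ℕ) (y w : List Bool) : Prop :=
  ∃ l, P.Runs (fun p => y.getD p false) P.start [] l ∧ l.length ≤ T ∧
    ∀ i b, .inr (i, b) ∈ l ↔ w[i]? = some b

/-- Given `f s` the program finds a preimage of `f s`, with at most `T` reads and writes. -/
def Inverts (P : Prog ℕ ℕ Bool) (T : ℕ) (f : List Bool → List Bool) (s : List Bool) : Prop :=
  ∃ w, Writes P T (f s) w ∧ f w = f s

section

variable (e k : ℕ) (g : (Fin e → Bool) → Bool)

open Classical in
/-- The variable at a position of the output. -/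
noncomputable def varOf (p : ℕ) : Option (Var k) :=
  if h : ∃ v : Var k, descLen e k + val k v = p then some h.choose else none

theorem varOf_iff (p : ℕ) (v : Var k) : varOf e k p = some v ↔ p = descLen e k + val k v := by
  unfold varOf
  constructor
  · intro h
    split_ifs at h with h1
    rw [Option.some.injEq] at h
    rw [← h]
    exact h1.choose_spec.symm
  · rintro rfl
    have h1 : ∃ v' : Var k, descLen e k + val k v' = descLen e k + val k v := ⟨v, rfl⟩
    rw [dif_pos h1, Option.some.injEq]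
    exact val_inj k (by have := h1.choose_spec; omega)

theorem inpOf_eq (G : Fin (rows e k) → Row (Var k) e) (x : Var k → Bool) :
    inpOf e k g G x = inpZ (kindOf e k) (descBit e k G) (fun j => rowVal g (G j) x) := by
  funext p
  unfold inpOf inpZ
  cases kindOf e k p <;> rfl

theorem winS_of_inverts (P : Prog ℕ ℕ Bool) (hk0 : 0 < k) (T : ℕ) (s : List Bool)
    (hk : addrLen e s.length = k) (h : Inverts P T (gold e g) s) :
    WinS (mapOut P (varOf e k)) g (inpZ (kindOf e k) (descBit e k (rowsOf e k s))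
      (fun j => rowVal g (rowsOf e k s j) (asgOf e k s))) T (rowsOf e k s) (asgOf e k s) := by
  obtain ⟨w, ⟨l, hl1, hl2, hout⟩, hw⟩ := h
  obtain ⟨h1, h2, h3⟩ := rows_of_eq e k g hw hk
  have h5 : (fun p => (gold e g s).getD p false) = inpZ (kindOf e k)
      (descBit e k (rowsOf e k s)) (fun j => rowVal g (rowsOf e k s j) (asgOf e k s)) := by
    rw [← inpOf_eq]
    funext p
    exact gold_getD e k g s hk p
  rw [h5] at hl1
  refine ⟨asgOf e k w, h3, _, mapOut_runs P (varOf e k) hl1, by rw [List.length_map]; exact hl2,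
    fun v b => ?_⟩
  rw [mem_map_inr]
  have h6 : (∃ o, varOf e k o = some v ∧ (.inr (o, b) : ℕ ⊕ (ℕ × Bool)) ∈ l) ↔
      .inr (descLen e k + val k v, b) ∈ l := by
    constructor
    · rintro ⟨o, ho, hb⟩
      rw [varOf_iff] at ho
      rwa [ho] at hb
    · intro hb
      exact ⟨_, (varOf_iff e k _ v).2 rfl, hb⟩
  rw [h6, hout]
  have hwlen : 1 ≤ w.length := by
    by_contra hcon
    have : w.length = 0 := by omega
    rw [this] at h1
    have h6 : addrLen e 0 = 0 := by simp [addrLen]
    omega
  have h7 := total_addrLen e w.length hwlen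
  rw [h1] at h7
  have h8 : descLen e k + val k v < w.length := by
    have := descLen_add e k
    have := val_lt k v
    omega
  unfold asgOf
  rw [List.getElem?_eq_getElem h8, List.getD_eq_getElem _ _ h8]
  constructor
  · intro h; exact (Option.some.inj h).symm
  · intro h; rw [h]

open Classical in
/-- The hardness of inversion in terms of the parameters. -/
theorem invert_bound_stack (P : List Bool → Prog ℕ ℕ Bool) (hk : 3 ≤ k) (l : ℕ)
    (hl : addrLen e l = k) (hl1 : 1 ≤ l) (a a' T M : ℕ) (ha : 0 < a) (haq : a ≤ 2 ^ (k - 3))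
    (ha' : 1 ≤ a') (hD : kap (stretch e) e * (4 * a') ≤ 2 ^ k)
    (hBa : (T / a' + 1) * (2 * a) ≤ 7 * 2 ^ (k - 3))
    (hM : ∀ h, Fintype.card (P h).State * (T * (Fintype.card (P h).State) ^ 2 + 1) ^ 4 ≤ M) :
    #(univ.filter (fun x : Fin l → Bool =>
      Inverts (P (pub e (List.ofFn x))) T (gold e g) (List.ofFn x))) * 2 ^ a ≤
      7 * M * 2 ^ l := by
  set V := Var k
  set m := rows e k with hm
  have hcard := card_var k hk
  have hm' : m = 8 ^ (e + 2) * (4 * Fintype.card V) := by
    rw [hm]; unfold rows stretch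
    simp only [V, Var, Fintype.card_fun, Fintype.card_bool, Fintype.card_fin]
    ring
  have hcardV : Fintype.card V = 2 ^ k := by simp [V, Var]
  have hcore := core_stack (V := V) (m := m) (e := e)
    (fun G => mapOut (P (pubOf e k G)) (varOf e k)) g (2 ^ (k - 3)) hcard hm' a a' T M ha haq ha'
    (by rw [hcardV]; exact hD) hBa (fun G => hM _) (kindOf e k) (descBit e k)
  set W := univ.filter (fun p : (Fin m → Row V e) × (V → Bool) =>
    WinS (mapOut (P (pubOf e k p.1)) (varOf e k)) g (inpZ (kindOf e k) (descBit e k p.1)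
      (fun j => rowVal g (p.1 j) p.2)) T p.1 p.2) with hW
  -- the projection
  have hlk : total e k ≤ l := by rw [← hl]; exact total_addrLen e l hl1
  let φ : Key e k → Fin l := fun x => ⟨keyPos e k x, (keyPos_lt e k x).trans_le hlk⟩
  have hφ : Function.Injective φ := by
    intro x x' h
    exact keyPos_inj e k (congrArg Fin.val h)
  let toPair : (Key e k → Bool) → (Fin m → Row V e) × (V → Bool) := fun t =>
    (fun j u i => t (Sum.inl (j, u, i)), fun v => t (Sum.inr v))
  have htoPair : Function.Injective toPair := by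
    intro t t' h
    funext x
    rcases x with ⟨j, u, i⟩ | v
    · exact congrFun (congrFun (congrFun (congrArg Prod.fst h) j) u) i
    · exact congrFun (congrArg Prod.snd h) v
  let Q : (Key e k → Bool) → Prop := fun t => toPair t ∈ W
  have hproj := card_proj φ hφ Q
  have hQcard : #(univ.filter Q) ≤ #W := by
    apply Finset.card_le_card_of_injOn toPair
    · intro t ht
      exact (mem_filter.1 ht).2
    · exact htoPair.injOn
  have hsub : univ.filter (fun x : Fin l → Bool =>
      Inverts (P (pub e (List.ofFn x))) T (gold e g) (List.ofFn x)) ⊆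
      univ.filter (fun x : Fin l → Bool => Q (x ∘ φ)) := by
    intro x hx
    have hx' := (mem_filter.1 hx).2
    rw [mem_filter]
    refine ⟨mem_univ _, ?_⟩
    have hlen : addrLen e (List.ofFn x).length = k := by rw [List.length_ofFn]; exact hl
    have hwin := winS_of_inverts e k g (P (pub e (List.ofFn x))) (by omega) T (List.ofFn x)
      hlen hx'
    rw [pub_eq e k (List.ofFn x) hlen] at hwin
    have hget : ∀ y : Key e k, (List.ofFn x).getD (keyPos e k y) false = x (φ y) := by
      intro y
      have h1 : keyPos e k y < (List.ofFn x).length := by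
        rw [List.length_ofFn]; exact (keyPos_lt e k y).trans_le hlk
      rw [List.getD_eq_getElem _ _ h1, List.getElem_ofFn]
    have h2 : toPair (x ∘ φ) = (rowsOf e k (List.ofFn x), asgOf e k (List.ofFn x)) := by
      refine Prod.ext ?_ ?_
      · funext j u i
        exact (hget (Sum.inl (j, u, i))).symm
      · funext v
        exact (hget (Sum.inr v)).symm
    change toPair (x ∘ φ) ∈ W
    rw [h2, hW, mem_filter]
    exact ⟨mem_univ _, hwin⟩
  have hA := card_le_card hsub
  have hkey : (2 : ℕ) ^ Fintype.card (Key e k) =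
      2 ^ Fintype.card V * Fintype.card (Row V e) ^ m := by
    rw [card_key, card_row, hcardV, ← pow_mul, ← pow_mul, ← pow_add]
    congr 1
    rw [← hm]; ring
  rw [← hkey] at hcore
  have hpos : 0 < 2 ^ Fintype.card (Key e k) := by positivity
  apply Nat.le_of_mul_le_mul_right _ hpos
  calc #(univ.filter (fun x : Fin l → Bool =>
        Inverts (P (pub e (List.ofFn x))) T (gold e g) (List.ofFn x))) * 2 ^ a *
        2 ^ Fintype.card (Key e k)
      ≤ #(univ.filter (fun x : Fin l → Bool => Q (x ∘ φ))) * 2 ^ a *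
        2 ^ Fintype.card (Key e k) :=
        Nat.mul_le_mul_right _ (Nat.mul_le_mul_right _ hA)
    _ = (#(univ.filter (fun x : Fin l → Bool => Q (x ∘ φ))) * 2 ^ Fintype.card (Key e k)) *
        2 ^ a := by ring
    _ = 2 ^ l * #(univ.filter Q) * 2 ^ a := by rw [hproj]; simp
    _ ≤ 2 ^ l * #W * 2 ^ a := Nat.mul_le_mul_right _ (Nat.mul_le_mul_left _ hQcard)
    _ = 2 ^ l * (#W * 2 ^ a) := by ring
    _ ≤ 2 ^ l * (7 * M * 2 ^ Fintype.card (Key e k)) :=
        Nat.mul_le_mul_left _ hcore
    _ = 7 * M * 2 ^ l * 2 ^ Fintype.card (Key e k) := by ring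

open Classical in
/-- The main hardness statement. -/
theorem hard_stack : ∃ c : ℕ, 0 < c ∧ ∀ᶠ l : ℕ in Filter.atTop,
    ∀ S T : ℕ, Nat.log 2 l ≤ S → c * (S * Nat.log 2 l) ≤ l →
      c * (T * S * (Nat.log 2 l) ^ 2) ≤ l ^ 2 →
    ∀ P : List Bool → Prog ℕ ℕ Bool, (∀ h, Fintype.card (P h).State ≤ 2 ^ S) →
      #(univ.filter (fun x : Fin l → Bool =>
        Inverts (P (pub e (List.ofFn x))) T (gold e g) (List.ofFn x))) * 2 ^ S ≤ 2 ^ l := by
  set κ := kap (stretch e) e with hκ
  have hκ0 : 0 < κ := by rw [hκ]; unfold kap stretch; positivity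
  set c1 := stretch e * (6 + e) with hc1
  set c2 := 2 * (2 * c1 + 1) with hc2
  refine ⟨c2 ^ 2 * (2048 * κ), by positivity, ?_⟩
  filter_upwards [Filter.eventually_ge_atTop (total e 3 + 3)] with l hl S T hS hSl hTS P hP
  have hl1 : 1 ≤ l := by omega
  set k := addrLen e l with hk
  have hk3 : 3 ≤ k := Nat.le_findGreatest (by omega) (by omega)
  set n := 2 ^ k with hn
  have hkl := total_addrLen e l hl1
  have hlk := lt_total_succ e l
  rw [← hk] at hkl hlk
  have hnl : n ≤ l := by
    have := descLen_add e k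
    omega
  set L := Nat.log 2 l with hL
  have hkL : k ≤ L := Nat.le_log_of_pow_le (by norm_num) hnl
  have hL1 : 1 ≤ L := by omega
  have hS1 : 1 ≤ S := by omega
  have hlL : l < 2 ^ (L + 1) := Nat.lt_pow_succ_log_self (by norm_num) l
  have hlc : l ≤ c2 * (n * L) := by
    have h1 : total e (k + 1) = 2 * n * (c1 * (k + 1) + 1) := by
      unfold total; rw [← hc1, pow_succ]; ring
    have h2 : c1 * (k + 1) + 1 ≤ (2 * c1 + 1) * L := by nlinarith [Nat.zero_le c1]
    calc l ≤ 2 * n * (c1 * (k + 1) + 1) := by rw [← h1]; exact hlk.le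
      _ ≤ 2 * n * ((2 * c1 + 1) * L) := Nat.mul_le_mul_left _ h2
      _ = c2 * (n * L) := by rw [hc2]; ring
  have hTSn : 2048 * κ * (T * S) ≤ n ^ 2 := by
    have h1 : l ^ 2 ≤ (c2 * (n * L)) ^ 2 := Nat.pow_le_pow_left hlc 2
    have h2 : (2048 * κ * (T * S)) * (c2 ^ 2 * L ^ 2) ≤ n ^ 2 * (c2 ^ 2 * L ^ 2) := by
      calc (2048 * κ * (T * S)) * (c2 ^ 2 * L ^ 2) =
          c2 ^ 2 * (2048 * κ) * (T * S * L ^ 2) := by ring
        _ ≤ l ^ 2 := hTS
        _ ≤ (c2 * (n * L)) ^ 2 := h1
        _ = n ^ 2 * (c2 ^ 2 * L ^ 2) := by ring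
    have h3 : 0 < c2 ^ 2 * L ^ 2 := by positivity
    exact Nat.le_of_mul_le_mul_right h2 h3
  have hc2pos : 0 < c2 := by rw [hc2]; omega
  have hSn : 2048 * κ * S ≤ n := by
    have h2 : (2048 * κ * S) * (c2 * L) ≤ n * (c2 * L) := by
      calc (2048 * κ * S) * (c2 * L) = c2 * (2048 * κ) * (S * L) := by ring
        _ ≤ c2 ^ 2 * (2048 * κ) * (S * L) := by
            apply Nat.mul_le_mul_right
            apply Nat.mul_le_mul_right
            rw [sq]
            exact Nat.le_mul_of_pos_left _ hc2pos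
        _ ≤ l := hSl
        _ ≤ c2 * (n * L) := hlc
        _ = n * (c2 * L) := by ring
    exact Nat.le_of_mul_le_mul_right h2 (by positivity)
  have hSκ : S ≤ κ * S := Nat.le_mul_of_pos_left _ hκ0
  have hκS : κ ≤ κ * S := Nat.le_mul_of_pos_right _ (by omega)
  have hSn' : 2048 * (κ * S) ≤ n := by
    calc 2048 * (κ * S) = 2048 * κ * S := by ring
      _ ≤ n := hSn
  set q := 2 ^ (k - 3) with hq
  have hnq : n = 8 * q := by
    rw [hn, hq, show (8 : ℕ) = 2 ^ 3 by norm_num, ← pow_add]
    congr 1; omega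
  set a' := n / (8 * κ) with ha'
  have ha'1 : 1 ≤ a' := (Nat.one_le_div_iff (by omega)).2 (by omega)
  have hD : κ * (4 * a') ≤ n := by
    have h1 := Nat.mul_div_le n (8 * κ)
    calc κ * (4 * a') ≤ 8 * κ * a' := by nlinarith [Nat.zero_le (κ * a')]
      _ ≤ n := h1
  have hn16 : n ≤ 16 * (κ * a') := by
    have h1 : n < 8 * κ * (a' + 1) := Nat.lt_mul_div_succ n (by omega)
    have h2 : κ ≤ κ * a' := Nat.le_mul_of_pos_right _ (by omega)
    have h3 : 8 * κ * (a' + 1) = 8 * (κ * a') + 8 * κ := by ring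
    omega
  have hBa : (T / a' + 1) * (2 * (33 * S)) ≤ 7 * q := by
    have h1 : (T / a' + 1) * a' ≤ T + a' := by
      have := Nat.div_mul_le_self T a'
      rw [Nat.add_mul, one_mul]
      omega
    have h2 : 32 * κ * ((T / a' + 1) * (2 * (33 * S)) * a') ≤ 32 * κ * (7 * q * a') := by
      have h3 : 2048 * (κ * (T * S)) ≤ 8 * q * (16 * (κ * a')) := by
        calc 2048 * (κ * (T * S)) = 2048 * κ * (T * S) := by ring
          _ ≤ n ^ 2 := hTSn
          _ = n * n := by ring
          _ ≤ n * (16 * (κ * a')) := Nat.mul_le_mul_left _ hn16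
          _ = _ := by rw [← hnq]
      have h4 : 2048 * (κ * S) * a' ≤ 8 * q * a' := by
        rw [← hnq]
        exact Nat.mul_le_mul_right _ hSn'
      have h6 : q * a' ≤ κ * (q * a') := Nat.le_mul_of_pos_left _ hκ0
      calc 32 * κ * ((T / a' + 1) * (2 * (33 * S)) * a') =
            2112 * (κ * S) * ((T / a' + 1) * a') := by ring
        _ ≤ 2112 * (κ * S) * (T + a') := Nat.mul_le_mul_left _ h1
        _ = 2112 * (κ * (T * S)) + 2112 * (κ * S * a') := by ring
        _ ≤ 224 * (κ * (q * a')) := by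
            have h7 : 8 * q * (16 * (κ * a')) = 128 * (κ * (q * a')) := by ring
            have h8 : 8 * q * a' = 8 * (q * a') := by ring
            have h9 : 2048 * (κ * S) * a' = 2048 * (κ * S * a') := by ring
            omega
        _ = 32 * κ * (7 * q * a') := by ring
    have h5 := Nat.le_of_mul_le_mul_left h2 (by positivity)
    exact Nat.le_of_mul_le_mul_right h5 (by omega)
  have hT : T ≤ 2 ^ (2 * S + 2) := by
    have h1 : T ≤ n ^ 2 := by
      calc T ≤ T * (2048 * κ * S) := Nat.le_mul_of_pos_right _ (by positivity)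
        _ = 2048 * κ * (T * S) := by ring
        _ ≤ n ^ 2 := hTSn
    have h2 : n ≤ 2 ^ (S + 1) := by
      have : 2 ^ (L + 1) ≤ 2 ^ (S + 1) := Nat.pow_le_pow_right (by norm_num) (by omega)
      omega
    calc T ≤ n ^ 2 := h1
      _ ≤ (2 ^ (S + 1)) ^ 2 := Nat.pow_le_pow_left h2 2
      _ = 2 ^ (2 * S + 2) := by rw [← pow_mul]; congr 1; ring
  have hmain := invert_bound_stack e k g P hk3 l hk.symm hl1 (33 * S) a' T (2 ^ (17 * S + 12))
    (by omega) (by omega) ha'1 hD hBa (by
      intro h
      have h1 := hP h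
      have h2 : T * (Fintype.card (P h).State) ^ 2 + 1 ≤ 2 ^ (4 * S + 3) := by
        calc T * (Fintype.card (P h).State) ^ 2 + 1 ≤ 2 ^ (2 * S + 2) * (2 ^ S) ^ 2 + 1 := by
              gcongr
          _ = 2 ^ (4 * S + 2) + 1 := by
              rw [← pow_mul, ← pow_add]; congr 2; ring
          _ ≤ 2 ^ (4 * S + 2) + 2 ^ (4 * S + 2) := by
              have : 1 ≤ 2 ^ (4 * S + 2) := Nat.one_le_two_pow
              omega
          _ = 2 ^ (4 * S + 3) := by rw [← two_mul, ← pow_succ']
      calc Fintype.card (P h).State * (T * (Fintype.card (P h).State) ^ 2 + 1) ^ 4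
          ≤ 2 ^ S * (2 ^ (4 * S + 3)) ^ 4 := by gcongr
        _ = 2 ^ (17 * S + 12) := by rw [← pow_mul, ← pow_add]; congr 1; ring)
  have h7 : 7 * 2 ^ (17 * S + 12) ≤ 2 ^ (32 * S) := by
    calc 7 * 2 ^ (17 * S + 12) ≤ 2 ^ 3 * 2 ^ (17 * S + 12) := Nat.mul_le_mul_right _ (by norm_num)
      _ = 2 ^ (17 * S + 15) := by rw [← pow_add]; congr 1; ring
      _ ≤ 2 ^ (32 * S) := Nat.pow_le_pow_right (by norm_num) (by omega)
  have hpos : 0 < 2 ^ (32 * S) := by positivity
  apply Nat.le_of_mul_le_mul_right _ hpos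
  calc _ = #(univ.filter (fun x : Fin l → Bool =>
        Inverts (P (pub e (List.ofFn x))) T (gold e g) (List.ofFn x))) * 2 ^ (33 * S) := by
        rw [mul_assoc, ← pow_add]; congr 2; ring
    _ ≤ 7 * 2 ^ (17 * S + 12) * 2 ^ l := hmain
    _ ≤ 2 ^ (32 * S) * 2 ^ l := Nat.mul_le_mul_right _ h7
    _ = 2 ^ l * 2 ^ (32 * S) := by ring

open Classical in
/-- The version for randomised programs. -/
theorem hard_stack_rand : ∃ c : ℕ, 0 < c ∧ ∀ᶠ l : ℕ in Filter.atTop,
    ∀ S T : ℕ, Nat.log 2 l ≤ S → c * (S * Nat.log 2 l) ≤ l →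
      c * (T * S * (Nat.log 2 l) ^ 2) ≤ l ^ 2 →
    ∀ (R : Type) [Fintype R] (P : R → List Bool → Prog ℕ ℕ Bool),
      (∀ r h, Fintype.card (P r h).State ≤ 2 ^ S) →
      Nat.card {u : R × (Fin l → Bool) //
        Inverts (P u.1 (pub e (List.ofFn u.2))) T (gold e g) (List.ofFn u.2)} * 2 ^ S ≤
        Fintype.card R * 2 ^ l := by
  obtain ⟨c, hc, h⟩ := hard_stack e g
  refine ⟨c, hc, ?_⟩
  filter_upwards [h] with l hl S T h1 h2 h3 R _ P hP
  rw [Nat.card_eq_fintype_card, Fintype.card_subtype, card_filter, Fintype.sum_prod_type, sum_mul]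
  calc _ ≤ ∑ _r : R, 2 ^ l := by
        apply sum_le_sum
        intro r _
        have h4 := hl S T h1 h2 h3 (P r) (hP r)
        rw [card_filter] at h4
        exact h4
    _ = _ := by rw [sum_const, card_univ, smul_eq_mul]

end

end Pool.Agent.Y602.GS
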