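import Pool.Agent.Y602.CIS

/-!
# The clique conditions between CIS and triangle graphs
-/

set_option autoImplicit false

namespace Pool.Agent.Y602

open Pool.Agent.H622R2 Pool.Agent.H609R2 Pool.Agent.NPC Pool.Agent.H495R3

/-- The `k`-clique condition: for every maximal stable set `S` and every clique `K` with `k`
vertices, none of which is in `S`, some vertex of `S` is adjacent to all vertices of `K`.
The triangle condition is the case `k = 2`. -/
def CliqueCond {V : Type} (k : ℕ) (G : SimpleGraph V) : Prop :=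
  ∀ S : Set V, Maximal G.IsIndepSet S → ∀ K : Finset V, G.IsNClique k K → (∀ x ∈ K, x ∉ S) →
    ∃ s ∈ S, ∀ x ∈ K, G.Adj s x

theorem cliqueCond_two {V : Type} (G : SimpleGraph V) : CliqueCond 2 G ↔ IsTriangleGraph G := by
  classical
  constructor
  · intro h S hS u v huv hu hv
    obtain ⟨s, hs, h1⟩ := h S hS {u, v} ⟨by
      rw [Finset.coe_pair, SimpleGraph.isClique_pair]
      exact fun _ => huv, Finset.card_pair huv.ne⟩ (by
      intro x hx
      rw [Finset.mem_insert, Finset.mem_singleton] at hx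
      rcases hx with rfl | rfl
      · exact hu
      · exact hv)
    exact ⟨s, hs, h1 u (by simp), h1 v (by simp)⟩
  · intro h S hS K hK hKS
    obtain ⟨u, v, hne, rfl⟩ := Finset.card_eq_two.1 hK.2
    have huv : G.Adj u v := hK.1 (by simp) (by simp) hne
    obtain ⟨s, hs, h1, h2⟩ := h S hS u v huv (hKS u (by simp)) (hKS v (by simp))
    refine ⟨s, hs, fun x hx => ?_⟩
    rw [Finset.mem_insert, Finset.mem_singleton] at hx
    rcases hx with rfl | rfl
    · exact h1
    · exact h2

theorem CliqueCond.of_iso {V W : Type} {k : ℕ} {G : SimpleGraph V} {H : SimpleGraph W}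
    (e : G ≃g H) (h : CliqueCond k H) : CliqueCond k G := by
  classical
  intro S hS K hK hKS
  have g1 : H.IsNClique k (K.map e.toEquiv.toEmbedding) := by
    refine ⟨?_, by rw [Finset.card_map]; exact hK.2⟩
    intro a ha b hb hab
    rw [Finset.mem_coe, Finset.mem_map] at ha hb
    obtain ⟨x, hx, rfl⟩ := ha
    obtain ⟨y, hy, rfl⟩ := hb
    exact (e.map_adj_iff).2 (hK.1 hx hy (fun h => hab (by rw [h])))
  have g2 : ∀ x ∈ K.map e.toEquiv.toEmbedding, x ∉ e '' S := by
    intro x hx
    rw [Finset.mem_map] at hx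
    obtain ⟨y, hy, rfl⟩ := hx
    change e y ∉ e '' S
    rw [e.injective.mem_set_image]
    exact hKS y hy
  obtain ⟨_, ⟨s, hs, rfl⟩, h1⟩ := h (e '' S) ((maximal_image e S).2 hS) _ g1 g2
  refine ⟨s, hs, fun x hx => (e.map_adj_iff).1 (h1 (e x) ?_)⟩
  rw [Finset.mem_map]
  exact ⟨x, hx, rfl⟩

/-- CIS graphs satisfy all clique conditions. -/
theorem IsCIS.cliqueCond {V : Type} [Finite V] {G : SimpleGraph V} (h : IsCIS G) (k : ℕ) :
    CliqueCond k G := by
  intro S hS K hK hKS
  obtain ⟨C, hKC, hC⟩ := (Set.toFinite {C : Set V | G.IsClique C}).exists_le_maximal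
    (show (K : Set V) ∈ {C : Set V | G.IsClique C} from hK.1)
  obtain ⟨s, hsC, hsS⟩ := h C S hC hS
  refine ⟨s, hsS, fun x hx => hC.1 hsC (hKC hx) ?_⟩
  rintro rfl
  exact hKS s hx hsS

/-- If the formula is satisfiable, the graph violates the `k`-clique condition when `k ≥ 2` is at
most the number of clauses plus one. -/
theorem not_cliqueCond_of_sat {n m : ℕ} {L : ℕ → ℕ → Bool → Bool} {vs : List Lb}
    (hvs : ∀ x, x ∈ vs ↔ ValidE n m L x)
    (i0 : ℕ) (hi0 : i0 < n) (hd : ∀ k a, L k i0 a = false) (τ : ℕ → Bool)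
    (hτ : ∀ k < m, ∃ i < n, L k i (τ i) = true) {k : ℕ} (hk : 2 ≤ k) (hkm : k ≤ m + 1) :
    ¬ CliqueCond k (labGraph vs (adjE L)) := by
  classical
  intro h
  have hu : (Sum.inl (i0, !τ i0) : Lb) ∈ vs := (hvs _).2 hi0
  have hv : ∀ j < k - 1, (Sum.inr (i0, j, τ i0) : Lb) ∈ vs := fun j hj =>
    (hvs _).2 ⟨hi0, show j < m by omega, hd j _⟩
  let T : Finset {x // x ∈ vs} :=
    Finset.univ.image (fun j : Fin (k - 1) => (⟨Sum.inr (i0, j, τ i0), hv j j.2⟩ : {x // x ∈ vs}))
  have hT : T.card = k - 1 := by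
    rw [Finset.card_image_of_injective, Finset.card_univ, Fintype.card_fin]
    intro a b hab
    simp only [Subtype.mk.injEq, Sum.inr.injEq, Prod.mk.injEq, true_and, and_true] at hab
    exact Fin.ext hab
  have huT : (⟨_, hu⟩ : {x // x ∈ vs}) ∉ T := by
    intro hm
    obtain ⟨j, _, hj⟩ := Finset.mem_image.1 hm
    simp at hj
  have hmem : ∀ x : {x // x ∈ vs}, x ∈ insert (⟨_, hu⟩ : {x // x ∈ vs}) T →
      x.1 = Sum.inl (i0, !τ i0) ∨ ∃ j < k - 1, x.1 = Sum.inr (i0, j, τ i0) := by
    intro x hx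
    rcases Finset.mem_insert.1 hx with rfl | hx
    · exact Or.inl rfl
    · obtain ⟨j, _, rfl⟩ := Finset.mem_image.1 hx
      exact Or.inr ⟨j, j.2, rfl⟩
  have g1 : (labGraph vs (adjE L)).IsNClique k (insert (⟨_, hu⟩ : {x // x ∈ vs}) T) := by
    refine ⟨?_, by rw [Finset.card_insert_of_notMem huT, hT]; omega⟩
    intro a ha b hb hab
    rw [adj_iff]
    rcases hmem a ha with h2 | ⟨j, _, h2⟩ <;> rcases hmem b hb with h3 | ⟨l, _, h3⟩
    · exact absurd (Subtype.ext (h2.trans h3.symm)) hab
    · rw [h2, h3, adjP_lr]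
      exact Or.inl ⟨rfl, by simp⟩
    · rw [h2, h3]
      refine AdjP.symm ?_
      rw [adjP_lr]
      exact Or.inl ⟨rfl, by simp⟩
    · rw [h2, h3, adjP_rr]
      left
      rintro rfl
      exact hab (Subtype.ext (h2.trans h3.symm))
  obtain ⟨⟨s, hsv⟩, ⟨i, hs⟩, h1⟩ := h _ (maximal_sat hvs τ hτ) _ g1 (by
    intro x hx
    rintro ⟨i, hi⟩
    rcases hmem x hx with h2 | ⟨j, _, h2⟩
    · rw [h2] at hi
      simp only [Sum.inl.injEq, Prod.mk.injEq] at hi
      obtain ⟨rfl, hi⟩ := hi
      simp at hi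
    · rw [h2] at hi
      simp at hi)
  simp only at hs
  subst hs
  have h2 := h1 _ (Finset.mem_insert_self _ _)
  have h3 := h1 ⟨Sum.inr (i0, 0, τ i0), hv 0 (by omega)⟩ (Finset.mem_insert_of_mem
    (Finset.mem_image.2 ⟨⟨0, by omega⟩, Finset.mem_univ _, rfl⟩))
  rw [adj_iff, adjP_ll] at h2
  rw [adj_iff, adjP_lr] at h3
  obtain ⟨rfl, _⟩ := h2
  rcases h3 with h3 | h3
  · exact h3.2 rfl
  · rw [hd] at h3
    exact absurd h3 (by simp)

/-! ### Repeating the clauses -/

/-- the formula `k` times -/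
def rep (k : ℕ) (φ : List C3) : List C3 := (List.range k).flatMap fun _ => φ

theorem mem_rep {k : ℕ} (hk : 0 < k) (φ : List C3) (c : C3) : c ∈ rep k φ ↔ c ∈ φ := by
  unfold rep
  rw [List.mem_flatMap]
  constructor
  · rintro ⟨_, _, h⟩; exact h
  · intro h; exact ⟨0, List.mem_range.2 hk, h⟩

theorem length_rep (k : ℕ) (φ : List C3) : (rep k φ).length = k * φ.length := by
  unfold rep
  rw [List.length_flatMap]
  simp

theorem rep_poly (k : ℕ) : Poly (rep k) := by
  unfold rep
  exact Poly.flatMap (F := fun (φ : List C3) (_ : ℕ) => φ) (NPC.Poly.const _) (NPC.Poly.fst NPC.Poly.id)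

/-- The reduction. -/
def kRed (k : ℕ) (φ : List C3) : List (List Bool) := eqRed (rep k φ)

theorem kRed_poly (k : ℕ) : Poly (kRed k) := eqRed_poly.comp (rep_poly k)

theorem rep_sat {k : ℕ} (hk : 0 < k) (φ : List C3) : SAT3 (rep k φ) ↔ SAT3 φ := by
  unfold SAT3 Sat3V
  refine exists_congr fun τ => ?_
  constructor
  · intro h c hc
    exact h c ((mem_rep hk φ c).2 hc)
  · intro h c hc
    exact h c ((mem_rep hk φ c).1 hc)

theorem rep_distinct {k : ℕ} (hk : 0 < k) {φ : List C3} (h : Distinct3 φ) :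
    Distinct3 (rep k φ) := fun c hc => h c ((mem_rep hk φ c).1 hc)

theorem rep_bounded {k : ℕ} (hk : 0 < k) {φ : List C3} (h : Bounded3 φ) :
    Bounded3 (rep k φ) := by
  intro c hc
  have h1 := h c ((mem_rep hk φ c).1 hc)
  rw [length_rep]
  have h2 : φ.length ≤ k * φ.length := Nat.le_mul_of_pos_left _ hk
  omega

/-- An unsatisfiable formula gives a CIS graph. -/
theorem kRed_unsat {k : ℕ} (hk : 0 < k) {φ : List C3} (h1 : Distinct3 φ) (h2 : Bounded3 φ)
    (h3 : φ ≠ []) (h : ¬ SAT3 φ) : IsCIS (matGraph (kRed k φ)) := by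
  by_contra hc
  have hne : rep k φ ≠ [] := by
    intro he
    have := length_rep k φ
    rw [he] at this
    have h4 := List.length_pos_iff.2 h3
    have h5 := Nat.mul_pos hk h4
    rw [← this] at h5
    simp at h5
  exact h ((rep_sat hk φ).1
    ((eqRed_cis (rep_distinct hk h1) (rep_bounded hk h2) hne).2 hc))

/-- A satisfiable formula gives a graph which violates the `k`-clique condition. -/
theorem kRed_sat {k : ℕ} (hk : 2 ≤ k) {φ : List C3} (h2 : Bounded3 φ)
    (h3 : φ ≠ []) (h : SAT3 φ) : ¬ CliqueCond k (matGraph (kRed k φ)) := by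
  intro hc
  have e := matIso (labE (rep k φ)) (adjE (satL (rep k φ))) (labE_nodup (rep k φ))
  have hb := rep_bounded (show 0 < k by omega) h2
  obtain ⟨τ, hτ⟩ := (SAT3_iff hb).1 ((rep_sat (by omega) φ).2 h)
  have hlen : k ≤ (rep k φ).length + 1 := by
    rw [length_rep]
    have h4 := List.length_pos_iff.2 h3
    have := Nat.le_mul_of_pos_right k h4
    omega
  exact not_cliqueCond_of_sat (mem_labE (rep k φ)) (3 * (rep k φ).length) (by omega)
    (satL_dummy hb) τ hτ hk hlen (CliqueCond.of_iso e.symm hc)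

theorem kRed_ne_nil (k : ℕ) (φ : List C3) : kRed k φ ≠ [] := by
  intro h
  obtain ⟨x⟩ := eqRed_nonempty (rep k φ)
  have h1 : 0 < (kRed k φ).length := lt_of_le_of_lt (Nat.zero_le _) x.2
  rw [h] at h1
  simp at h1

/-- **Sandwich theorem.** -/
theorem sandwich {k : ℕ} (hk : 2 ≤ k) {Q : List (List Bool) → Prop}
    (h1 : ∀ M, M ≠ [] → IsCIS (matGraph M) → Q M) (h2 : ∀ M, Q M → CliqueCond k (matGraph M)) :
    CoNPHardP Q := by
  refine HardPr.toCoNPHardP (Pr := fun _ => True) ?_
  refine hardPr_SAT3b.trans (Pr' := fun _ => True) (kRed_poly k) (fun _ _ => trivial) ?_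
  rintro φ ⟨h3, h4, h5⟩
  constructor
  · intro hs hQ
    exact kRed_sat hk h4 h5 hs (h2 _ hQ)
  · intro hQ
    by_contra hs
    exact hQ (h1 _ (kRed_ne_nil k φ) (kRed_unsat (by omega) h3 h4 h5 hs))

/-! ### Membership in coNP -/

/-- The verifier: a maximal stable set and a clique of size `k` without common vertex and
without common neighbour in the stable set. -/
def chkK (k : ℕ) (p : List (List Bool) × List ℕ × List ℕ) : Bool :=
  (p.2.1.all fun i => decide (i < p.1.length)) &&
  (p.2.1.all fun i => p.2.1.all fun j => !adjB p.1 i j) &&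
  ((List.range p.1.length).all fun x => decide (x ∈ p.2.1) || p.2.1.any fun i => adjB p.1 i x) &&
  (p.2.2.all fun i => decide (i < p.1.length)) &&
  (p.2.2.zipIdx.all fun i => p.2.2.zipIdx.all fun j => decide (i.2 = j.2) || adjB p.1 i.1 j.1) &&
  decide (p.2.2.length = k) &&
  (p.2.2.all fun i => !decide (i ∈ p.2.1)) &&
  !(p.2.1.any fun i => p.2.2.all fun x => adjB p.1 i x)

theorem chkK_poly (k : ℕ) : Poly (chkK k) := by
  unfold chkK
  have h1 : Poly (fun p : List (List Bool) × List ℕ × List ℕ => List.range p.1.length) :=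
    Poly.range_length (Poly.fst Poly.id)
  have h2 : Poly (fun p : List (List Bool) × List ℕ × List ℕ =>
      (List.range p.1.length).all fun x => decide (x ∈ p.2.1) ||
        p.2.1.any fun i => adjB p.1 i x) := by
    refine Poly.all (p := fun (p : List (List Bool) × List ℕ × List ℕ) x =>
      decide (x ∈ p.2.1) || p.2.1.any fun i => adjB p.1 i x) h1 ?_
    fun_prop
  have h3 : Poly (fun p : List (List Bool) × List ℕ × List ℕ =>
      p.2.2.zipIdx.all fun i => p.2.2.zipIdx.all fun j =>
        decide (i.2 = j.2) || adjB p.1 i.1 j.1) := by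
    have hz : Poly (fun p : List (List Bool) × List ℕ × List ℕ => p.2.2.zipIdx) :=
      Poly.zipIdx (Poly.snd (Poly.snd Poly.id))
    refine Poly.all (p := fun (p : List (List Bool) × List ℕ × List ℕ) (i : ℕ × ℕ) =>
      p.2.2.zipIdx.all fun j => decide (i.2 = j.2) || adjB p.1 i.1 j.1) hz ?_
    refine Poly.all (p := fun (q : (List (List Bool) × List ℕ × List ℕ) × ℕ × ℕ) (j : ℕ × ℕ) =>
      decide (q.2.2 = j.2) || adjB q.1.1 q.2.1 j.1) (hz.comp (Poly.fst Poly.id)) ?_
    fun_prop
  fun_prop

theorem not_cliqueCond_iff (k : ℕ) (M : List (List Bool)) :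
    ¬ CliqueCond k (matGraph M) ↔
      ∃ w : List ℕ × List ℕ, sz w ≤ (Polynomial.C 8 * Polynomial.X * Polynomial.X +
        Polynomial.C 20 * Polynomial.X + Polynomial.C 20 : Polynomial ℕ).eval (sz M) ∧
        chkK k (M, w) = true := by
  classical
  constructor
  · intro h
    unfold CliqueCond at h
    push Not at h
    obtain ⟨S, hS, K, hK, hKS, hs⟩ := h
    have hmemK : ∀ i, i ∈ listOf M (K : Set (Fin M.length)) ↔
        ∃ h : i < M.length, (⟨i, h⟩ : Fin M.length) ∈ K := fun i => mem_listOf i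
    have hnd : ∀ T : Set (Fin M.length), (listOf M T).Nodup := by
      intro T
      unfold listOf
      exact List.nodup_range.filter _
    refine ⟨(listOf M S, listOf M (K : Set (Fin M.length))), ?_, ?_⟩
    · have h1 := sz_listOf_le M S
      have h2 := sz_listOf_le M (K : Set (Fin M.length))
      have h5 := length_lt_sz M
      simp only [sz_pair, Polynomial.eval_add, Polynomial.eval_mul, Polynomial.eval_C,
        Polynomial.eval_X]
      nlinarith
    · simp only [chkK, Bool.and_eq_true, List.all_eq_true, decide_eq_true_eq, Bool.not_eq_true',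
        Bool.or_eq_true, List.any_eq_true, List.mem_range, decide_eq_false_iff_not]
      refine ⟨⟨⟨⟨⟨⟨⟨?_, ?_⟩, ?_⟩, ?_⟩, ?_⟩, ?_⟩, ?_⟩, ?_⟩
      · intro i hi
        exact ((mem_listOf i).1 hi).1
      · intro i hi j hj
        obtain ⟨hi1, hi2⟩ := (mem_listOf i).1 hi
        obtain ⟨hj1, hj2⟩ := (mem_listOf j).1 hj
        rw [← Bool.not_eq_true, adjB_iff M ⟨i, hi1⟩ ⟨j, hj1⟩]
        intro hadj
        exact hS.1 hi2 hj2 hadj.ne hadj
      · intro x hx
        by_cases hxS : (⟨x, hx⟩ : Fin M.length) ∈ S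
        · exact Or.inl ((mem_listOf x).2 ⟨hx, hxS⟩)
        · right
          by_contra hcon
          push Not at hcon
          apply hxS
          have h1 : (matGraph M).IsIndepSet (insert ⟨x, hx⟩ S) := by
            intro a ha b hb hab hadj
            rcases ha with rfl | ha
            · rcases hb with rfl | hb
              · exact hab rfl
              · exact hcon b.1 ((mem_listOf b.1).2 ⟨b.2, hb⟩)
                  ((adjB_iff M b ⟨x, hx⟩).2 hadj.symm)
            · rcases hb with rfl | hb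
              · exact hcon a.1 ((mem_listOf a.1).2 ⟨a.2, ha⟩) ((adjB_iff M a ⟨x, hx⟩).2 hadj)
              · exact hS.1 ha hb hab hadj
          exact hS.2 h1 (Set.subset_insert _ _) (Set.mem_insert _ _)
      · intro i hi
        exact ((mem_listOf i).1 hi).1
      · rintro ⟨i, a⟩ hi ⟨j, b⟩ hj
        rw [List.mem_zipIdx_iff_getElem?] at hi hj
        simp only at hi hj ⊢
        by_cases hab : a = b
        · exact Or.inl hab
        · right
          obtain ⟨ha1, ha2⟩ := List.getElem?_eq_some_iff.1 hi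
          obtain ⟨hb1, hb2⟩ := List.getElem?_eq_some_iff.1 hj
          have hij : i ≠ j := by
            intro hij
            rw [← ha2, ← hb2] at hij
            exact hab ((List.Nodup.getElem_inj_iff (hnd _)).1 hij)
          obtain ⟨hi1, hi2⟩ := (hmemK i).1 (ha2 ▸ List.getElem_mem ha1)
          obtain ⟨hj1, hj2⟩ := (hmemK j).1 (hb2 ▸ List.getElem_mem hb1)
          rw [adjB_iff M ⟨i, hi1⟩ ⟨j, hj1⟩]
          exact hK.1 hi2 hj2 (fun h => hij (congrArg Fin.val h))
      · rw [← hK.2, ← List.toFinset_card_of_nodup (hnd _)]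
        refine (Finset.card_bij (fun (x : Fin M.length) _ => (x : ℕ)) ?_ ?_ ?_).symm
        · intro x hx
          rw [List.mem_toFinset, hmemK]
          exact ⟨x.2, hx⟩
        · intro x _ y _ h
          exact Fin.ext h
        · intro i hi
          rw [List.mem_toFinset, hmemK] at hi
          obtain ⟨h1, h2⟩ := hi
          exact ⟨_, h2, rfl⟩
      · intro i hi hi'
        obtain ⟨h1, h2⟩ := (hmemK i).1 hi
        obtain ⟨_, h3⟩ := (mem_listOf i).1 hi'
        exact hKS _ h2 h3
      · rw [List.any_eq_false]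
        intro i hi hadj
        obtain ⟨hi1, hi2⟩ := (mem_listOf i).1 hi
        rw [List.all_eq_true] at hadj
        obtain ⟨x, hx, hnx⟩ := hs _ hi2
        exact hnx ((adjB_iff M ⟨i, hi1⟩ x).1 (hadj x ((hmemK x).2 ⟨x.2, hx⟩)))
  · rintro ⟨⟨T, K⟩, -, hc⟩ h
    simp only [chkK, Bool.and_eq_true, List.all_eq_true, decide_eq_true_eq, Bool.not_eq_true',
        Bool.or_eq_true, List.any_eq_true, List.mem_range, decide_eq_false_iff_not] at hc
    obtain ⟨⟨⟨⟨⟨⟨⟨c1, c2⟩, c3⟩, c4⟩, c5⟩, c6⟩, c7⟩, c8⟩ := hc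
    have hmax : Maximal (matGraph M).IsIndepSet {x : Fin M.length | (x : ℕ) ∈ T} := by
      refine ⟨?_, ?_⟩
      · intro a ha b hb _ hadj
        have h1 := c2 _ ha _ hb
        rw [(adjB_iff M a b).2 hadj] at h1
        exact absurd h1 (by simp)
      · intro T' hT' hTT' x hx
        rcases c3 x.1 x.2 with h1 | ⟨i, hi, h1⟩
        · exact h1
        · exfalso
          have h2 : (⟨i, c1 i hi⟩ : Fin M.length) ∈ T' := hTT' hi
          have h3 := (adjB_iff M ⟨i, c1 i hi⟩ x).1 h1
          exact hT' h2 hx h3.ne h3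
    -- different positions hold different vertices
    have hadjK : ∀ (a b : ℕ) (ha : a < K.length) (hb : b < K.length), a ≠ b →
        adjB M K[a] K[b] = true := by
      intro a b ha hb hab
      rcases c5 (K[a], a) (by
        rw [List.mem_zipIdx_iff_getElem?]
        exact List.getElem?_eq_getElem ha) (K[b], b) (by
        rw [List.mem_zipIdx_iff_getElem?]
        exact List.getElem?_eq_getElem hb) with h1 | h1
      · exact absurd h1 hab
      · exact h1
    have hnd : K.Nodup := by
      rw [List.nodup_iff_injective_getElem]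
      intro a b hab
      by_contra hne
      have := hadjK a b a.2 b.2 (fun h => hne (Fin.ext h))
      simp only at hab
      rw [hab] at this
      simp [adjB] at this
    let K' : Finset (Fin M.length) := Finset.univ.filter fun x => (x : ℕ) ∈ K
    have hcl : (matGraph M).IsNClique k K' := by
      refine ⟨?_, ?_⟩
      · intro x hx y hy hxy
        simp only [K', Finset.coe_filter, Finset.mem_univ, true_and, Set.mem_ofPred_eq] at hx hy
        obtain ⟨a, ha, hxa⟩ := List.getElem_of_mem hx
        obtain ⟨b, hb, hyb⟩ := List.getElem_of_mem hy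
        have hne : a ≠ b := by
          rintro rfl
          exact hxy (Fin.ext (hxa.symm.trans hyb))
        have := hadjK a b ha hb hne
        rw [hxa, hyb] at this
        exact (adjB_iff M x y).1 this
      · rw [← c6, ← List.toFinset_card_of_nodup hnd]
        refine Finset.card_bij (fun (x : Fin M.length) _ => (x : ℕ)) ?_ ?_ ?_
        · intro x hx
          rw [List.mem_toFinset]
          simpa [K'] using hx
        · intro x _ y _ h
          exact Fin.ext h
        · intro i hi
          rw [List.mem_toFinset] at hi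
          exact ⟨⟨i, c4 i hi⟩, by simpa [K'] using hi, rfl⟩
    obtain ⟨s, hs, h1⟩ := h _ hmax K' hcl (by
      intro x hx hxT
      simp only [K', Finset.mem_filter, Finset.mem_univ, true_and] at hx
      exact c7 _ hx hxT)
    rw [List.any_eq_false] at c8
    refine c8 _ hs ?_
    rw [List.all_eq_true]
    intro i hi
    exact (adjB_iff M s ⟨i, c4 i hi⟩).2 (h1 _ (by simpa [K'] using hi))

theorem inCoNP_cliqueCond (k : ℕ) :
    InCoNPP (fun M : List (List Bool) => CliqueCond k (matGraph M)) :=
  inCoNPP_of (chkK_poly k) _ (not_cliqueCond_iff k)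

end Pool.Agent.Y602
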